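import Mathlib

/-!
# Iterated limits along an idempotent ultrafilter

`EvU U k P`: `P (s_1, ..., s_k)` holds for `U`-most `s_1`, for `U`-most `s_2`, ....
The tower lemma (finite configurations of differences inside a large set of vectors) and the
diagonal lemma (block sequences all of whose block sums satisfy countably many such conditions).
-/

set_option autoImplicit false

namespace Pool.Agent.H469S

open Filter Finset

attribute [local instance] Ultrafilter.mul Ultrafilter.add
attribute [local instance] Ultrafilter.semigroup Ultrafilter.addSemigroup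

section EvU

variable {M : Type*}

/-- `P (s_1, ..., s_k)` for `U`-most `s_1`, for `U`-most `s_2`, ... -/
def EvU (U : Ultrafilter M) : (k : ℕ) → ((Fin k → M) → Prop) → Prop
  | 0, P => P Fin.elim0
  | k + 1, P => ∀ᶠ s in (U : Filter M), EvU U k (fun v => P (Fin.cons (α := fun _ => M) s v))

variable {U : Ultrafilter M}

theorem EvU.mono {k : ℕ} {P Q : (Fin k → M) → Prop} (h : ∀ v, P v → Q v) (hP : EvU U k P) :
    EvU U k Q := by
  induction k with
  | zero => exact h _ hP
  | succ k ih =>
    exact Filter.Eventually.mono hP fun s hs => ih (fun v => h _) hs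

theorem EvU.and {k : ℕ} {P Q : (Fin k → M) → Prop} (hP : EvU U k P) (hQ : EvU U k Q) :
    EvU U k (fun v => P v ∧ Q v) := by
  induction k with
  | zero => exact ⟨hP, hQ⟩
  | succ k ih =>
    have h1 : ∀ᶠ s in (U : Filter M), EvU U k (fun v => P (Fin.cons (α := fun _ => M) s v)) := hP
    have h2 : ∀ᶠ s in (U : Filter M), EvU U k (fun v => Q (Fin.cons (α := fun _ => M) s v)) := hQ
    have : ∀ᶠ s in (U : Filter M), EvU U k (fun v => P (Fin.cons (α := fun _ => M) s v) ∧
        Q (Fin.cons (α := fun _ => M) s v)) := by
      filter_upwards [h1, h2] with s hs1 hs2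
      exact ih hs1 hs2
    exact this

theorem EvU.of_forall {k : ℕ} {P : (Fin k → M) → Prop} (h : ∀ v, P v) : EvU U k P := by
  induction k with
  | zero => exact h _
  | succ k ih =>
    exact Filter.Eventually.of_forall fun s => ih fun v => h _

theorem EvU.not {k : ℕ} {P : (Fin k → M) → Prop} : ¬ EvU U k P ↔ EvU U k (fun v => ¬ P v) := by
  induction k with
  | zero => exact Iff.rfl
  | succ k ih =>
    have h1 : EvU U (k + 1) (fun v => ¬ P v) ↔
      ∀ᶠ s in (U : Filter M), EvU U k (fun v => ¬ P (Fin.cons (α := fun _ => M) s v)) := Iff.rfl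
    have h2 : EvU U (k + 1) P ↔
      ∀ᶠ s in (U : Filter M), EvU U k (fun v => P (Fin.cons (α := fun _ => M) s v)) := Iff.rfl
    rw [h1, h2, ← Ultrafilter.eventually_not]
    constructor
    · intro h
      exact h.mono fun s hs => ih.1 hs
    · intro h
      exact h.mono fun s hs => ih.2 hs

theorem EvU.all_finset {ι : Type*} {k : ℕ} {P : ι → (Fin k → M) → Prop} (S : Finset ι)
    (h : ∀ i ∈ S, EvU U k (P i)) : EvU U k (fun v => ∀ i ∈ S, P i v) := by
  classical
  induction S using Finset.induction_on with
  | empty => exact EvU.of_forall fun v i hi => by simp at hi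
  | insert a S ha ih =>
    have h1 := (h a (Finset.mem_insert_self _ _)).and
      (ih fun i hi => h i (Finset.mem_insert_of_mem hi))
    exact h1.mono fun v hv i hi => by
      rcases Finset.mem_insert.1 hi with rfl | hi
      · exact hv.1
      · exact hv.2 i hi

end EvU

section Tower

variable {M : Type*} [AddCommMonoid M] {U : Ultrafilter M}

/-- the vector with the entries `Σ_{g ≤ t < g'} u j t` for `j ∈ J` and `u j 0` otherwise -/
def wv {k : ℕ} (J : Finset (Fin k)) (u : Fin k → ℕ → M) (g g' : ℕ) : Fin k → M :=
  fun j => if j ∈ J then ∑ t ∈ Ico g g', u j t else u j 0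

theorem tower (hU : U + U = U) (r : ℕ) : ∀ (k : ℕ) (J : Finset (Fin k))
    (P : ℕ → ℕ → (Fin k → M) → Prop), (∀ g g', g < g' → g' ≤ r → EvU U k (P g g')) →
    ∃ u : Fin k → ℕ → M, ∀ g g', g < g' → g' ≤ r → P g g' (wv J u g g') := by
  intro k
  induction k with
  | zero =>
    intro J P h
    refine ⟨fun j => Fin.elim0 j, fun g g' h1 h2 => ?_⟩
    have := h g g' h1 h2
    have e : wv J (fun j : Fin 0 => (Fin.elim0 j : ℕ → M)) g g' = Fin.elim0 := by
      funext j
      exact Fin.elim0 j
    rw [e]
    exact this
  | succ k ih =>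
    intro J P h
    classical
    have hG : ∀ᶠ s in (U : Filter M), ∀ p ∈ (range (r + 1) ×ˢ range (r + 1)), p.1 < p.2 →
        EvU U k (fun v => P p.1 p.2 (Fin.cons (α := fun _ => M) s v)) := by
      rw [Filter.eventually_all_finset]
      rintro ⟨g, g'⟩ hp
      rw [mem_product, mem_range, mem_range] at hp
      by_cases hlt : g < g'
      · have h1 : ∀ᶠ s in (U : Filter M), EvU U k (fun v => P g g' (Fin.cons (α := fun _ => M) s v)) :=
          h g g' hlt (by have := hp.2; simp only at this; omega)
        exact h1.mono fun s hs _ => hs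
      · exact Filter.Eventually.of_forall fun s hs => absurd hs hlt
    obtain ⟨a, ha⟩ := Hindman.exists_FS_of_large U hU _ hG
    set s : ℕ → ℕ → M := fun g g' => if (0 : Fin (k + 1)) ∈ J then ∑ t ∈ Ico g g', a.get t else a.get 0
      with hs
    have hsG : ∀ g g', g < g' → g' ≤ r →
        EvU U k (fun v => P g g' (Fin.cons (α := fun _ => M) (s g g') v)) := by
      intro g g' h1 h2
      have hmem : s g g' ∈ Hindman.FS a := by
        by_cases h0 : (0 : Fin (k + 1)) ∈ J
        · simp only [hs, h0, if_true]
          exact Hindman.FS.finsetSum a (Ico g g') (by simpa using h1)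
        · simp only [hs, h0, if_false]
          exact Hindman.FS.singleton a 0
      exact ha hmem (g, g') (by rw [mem_product, mem_range, mem_range]; constructor <;> simp only <;> omega) h1
    obtain ⟨u', hu'⟩ := ih (univ.filter fun j => j.succ ∈ J)
      (fun g g' v => P g g' (Fin.cons (α := fun _ => M) (s g g') v)) hsG
    refine ⟨Fin.cons (α := fun _ => ℕ → M) (fun t => a.get t) u', fun g g' h1 h2 => ?_⟩
    have h3 := hu' g g' h1 h2
    have e : wv J (Fin.cons (α := fun _ => ℕ → M) (fun t => a.get t) u') g g' =
        Fin.cons (α := fun _ => M) (s g g') (wv (univ.filter fun j => j.succ ∈ J) u' g g') := by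
      funext j
      refine Fin.cases ?_ (fun j => ?_) j
      · simp only [wv, Fin.cons_zero, hs]
      · simp only [wv, Fin.cons_succ, mem_filter, mem_univ, true_and]
    rw [e]
    exact h3

theorem wv_add {k : ℕ} (J : Finset (Fin k)) (u : Fin k → ℕ → M) {g₀ g g' : ℕ} (h0 : g₀ ≤ g) (h1 : g ≤ g') :
    wv J u g₀ g' = fun j => if j ∈ J then wv J u g₀ g j + wv J u g g' j else wv J u g₀ g j := by
  funext j
  by_cases hj : j ∈ J
  · simp only [wv, hj, if_true]
    exact (Finset.sum_Ico_consecutive _ h0 h1).symm
  · simp only [wv, hj, if_false]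

end Tower

section Diag

variable {M : Type*} [AddCommMonoid M] {U : Ultrafilter M}

/-- obligations -/
abbrev Ob (M : Type*) := Σ k : ℕ, ((Fin k → M) → Prop)

def Ok (U : Ultrafilter M) (o : Ob M) : Prop := EvU U o.1 o.2

/-- the new obligations after the choice of `y` -/
def nxt (y : M) : Ob M → List (Ob M)
  | ⟨0, _⟩ => []
  | ⟨k + 1, Q⟩ => [⟨k, fun v => Q (Fin.cons (α := fun _ => M) y v)⟩,
      ⟨k + 1, fun v => Q (Fin.cons (α := fun _ => M) (y + v 0) (Fin.tail v))⟩]

theorem ok_nxt (hU : U + U = U) (o : Ob M) (ho : Ok U o) : ∀ᶠ y in (U : Filter M), ∀ o' ∈ nxt y o, Ok U o' := by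
  obtain ⟨k, Q⟩ := o
  cases k with
  | zero => exact Filter.Eventually.of_forall fun y o' ho' => by simp [nxt] at ho'
  | succ k =>
    have h1 : ∀ᶠ s in (U : Filter M), EvU U k (fun v => Q (Fin.cons (α := fun _ => M) s v)) := ho
    have h2 : ∀ᶠ y in (U : Filter M), ∀ᶠ s in (U : Filter M),
        EvU U k (fun v => Q (Fin.cons (α := fun _ => M) (y + s) v)) := by
      have h3 : ∀ᶠ s in ((U + U : Ultrafilter M) : Filter M),
        EvU U k (fun v => Q (Fin.cons (α := fun _ => M) s v)) := by rw [hU]; exact h1
      exact (Ultrafilter.eventually_add U U _).1 h3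
    filter_upwards [h1, h2] with y hy1 hy2 o' ho'
    simp only [nxt, List.mem_cons, List.not_mem_nil, or_false] at ho'
    rcases ho' with rfl | rfl
    · exact hy1
    · show ∀ᶠ s in (U : Filter M), EvU U k (fun v => Q (Fin.cons (α := fun _ => M)
        (y + (Fin.cons (α := fun _ => M) s v : Fin (k + 1) → M) 0)
        (Fin.tail (Fin.cons (α := fun _ => M) s v : Fin (k + 1) → M))))
      simpa only [Fin.cons_zero, Fin.tail_cons] using hy2

theorem diag (hU : U + U = U) (L : M → M → Prop) (hL : ∀ s, ∀ᶠ y in (U : Filter M), L s y)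
    (E : ℕ → List (Ob M)) (hE : ∀ a, ∀ o ∈ E a, Ok U o) :
    ∃ y : ℕ → M, (∀ n, L (∑ i ∈ range n, y i) (y n)) ∧
      ∀ a, ∀ o ∈ E a, ∀ F : Fin o.1 → Finset ℕ, (∀ i, (F i).Nonempty) →
        (∀ i j, i < j → ∀ s ∈ F i, ∀ t ∈ F j, s < t) → (∀ i, ∀ s ∈ F i, a ≤ s) →
        o.2 (fun i => ∑ j ∈ F i, y j) := by
  classical
  have hex : ∀ σ : {p : List (Ob M) × M // ∀ o ∈ p.1, Ok U o}, ∃ y : M, L σ.1.2 y ∧
      ∀ o ∈ σ.1.1, ∀ o' ∈ nxt y o, Ok U o' := by
    rintro ⟨⟨O, s⟩, hO⟩
    have h1 : ∀ᶠ y in (U : Filter M), ∀ o ∈ {o | o ∈ O}, ∀ o' ∈ nxt y o, Ok U o' := by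
      rw [Filter.eventually_all_finite (List.finite_toSet O)]
      intro o ho
      exact ok_nxt hU o (hO o ho)
    obtain ⟨y, hy1, hy2⟩ := ((hL s).and h1).exists
    exact ⟨y, hy1, hy2⟩
  choose y hy1 hy2 using hex
  let step : ℕ → {p : List (Ob M) × M // ∀ o ∈ p.1, Ok U o} → {p : List (Ob M) × M // ∀ o ∈ p.1, Ok U o} :=
    fun n σ => ⟨(σ.1.1 ++ σ.1.1.flatMap (nxt (y σ)) ++ E (n + 1), σ.1.2 + y σ), by
      intro o ho
      simp only [List.mem_append, List.mem_flatMap] at ho
      rcases ho with (ho | ⟨o', ho', ho⟩) | ho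
      · exact σ.2 o ho
      · exact hy2 σ o' ho' o ho
      · exact hE _ o ho⟩
  let σ : ℕ → {p : List (Ob M) × M // ∀ o ∈ p.1, Ok U o} :=
    fun n => Nat.rec ⟨(E 0, 0), hE 0⟩ (fun n τ => step n τ) n
  have hσ : ∀ n, σ (n + 1) = step n (σ n) := fun n => rfl
  have hsub : ∀ n, ∀ o ∈ (σ n).1.1, o ∈ (σ (n + 1)).1.1 := by
    intro n o ho
    rw [hσ]
    simp only [step, List.mem_append]
    exact Or.inl (Or.inl ho)
  have hmono : ∀ n m, n ≤ m → ∀ o ∈ (σ n).1.1, o ∈ (σ m).1.1 := by
    intro n m hnm
    induction m, hnm using Nat.le_induction with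
    | base => exact fun o ho => ho
    | succ m _ ih => exact fun o ho => hsub m o (ih o ho)
  have hnew : ∀ n, ∀ o ∈ (σ n).1.1, ∀ o' ∈ nxt (y (σ n)) o, o' ∈ (σ (n + 1)).1.1 := by
    intro n o ho o' ho'
    rw [hσ]
    simp only [step, List.mem_append, List.mem_flatMap]
    exact Or.inl (Or.inr ⟨o, ho, ho'⟩)
  have hEa : ∀ a, ∀ o ∈ E a, o ∈ (σ a).1.1 := by
    intro a o ho
    cases a with
    | zero => exact ho
    | succ a =>
      rw [hσ]
      simp only [step, List.mem_append]
      exact Or.inr ho
  have hsum : ∀ n, (σ n).1.2 = ∑ i ∈ range n, y (σ i) := by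
    intro n
    induction n with
    | zero => rfl
    | succ n ih => rw [Finset.sum_range_succ, ← ih, hσ]
  refine ⟨fun n => y (σ n), fun n => ?_, ?_⟩
  · rw [← hsum]
    exact hy1 _
  · -- tracking
    have key : ∀ (k : ℕ) (c : ℕ) (Q : (Fin k → M) → Prop) (n : ℕ), (⟨k, Q⟩ : Ob M) ∈ (σ n).1.1 →
        ∀ F : Fin k → Finset ℕ, (∀ i, (F i).Nonempty) →
        (∀ i j, i < j → ∀ s ∈ F i, ∀ t ∈ F j, s < t) → (∀ i, ∀ s ∈ F i, n ≤ s) →
        (∀ i : Fin k, (i : ℕ) = 0 → (F i).card ≤ c) →
        Q (fun i => ∑ j ∈ F i, y (σ j)) := by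
      intro k
      induction k with
      | zero =>
        intro c Q n hQ F _ _ _ _
        have h1 := (σ n).2 _ hQ
        have h2 : Q Fin.elim0 := h1
        have e : (fun i : Fin 0 => ∑ j ∈ F i, y (σ j)) = Fin.elim0 := by
          funext i
          exact Fin.elim0 i
        rw [e]
        exact h2
      | succ k ihk =>
        intro c
        induction c with
        | zero =>
          intro Q n hQ F hF _ _ hc
          exfalso
          have h1 := hc 0 rfl
          have h2 := (hF 0).card_pos
          omega
        | succ c ihc =>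
          intro Q n hQ F hF hlt hn hc
          obtain ⟨m, hm, hmin⟩ : ∃ m ∈ F 0, ∀ s ∈ F 0, m ≤ s :=
            ⟨(F 0).min' (hF 0), Finset.min'_mem _ _, fun s hs => Finset.min'_le _ _ hs⟩
          have hnm : n ≤ m := hn 0 m hm
          have hQm := hmono n m hnm _ hQ
          have ho1 := hnew m _ hQm ⟨k, fun v => Q (Fin.cons (α := fun _ => M) (y (σ m)) v)⟩ (by simp [nxt])
          have ho2 := hnew m _ hQm ⟨k + 1, fun v => Q (Fin.cons (α := fun _ => M) (y (σ m) + v 0) (Fin.tail v))⟩
            (by simp [nxt])
          by_cases hsing : F 0 = {m}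
          · have h3 := ihk ((F 0).card + ∑ i : Fin k, (F i.succ).card) _ (m + 1) ho1 (fun i => F i.succ)
              (fun i => hF _) (fun i j hij => hlt _ _ (Fin.succ_lt_succ_iff.2 hij))
              (fun i s hs => hlt 0 i.succ (Fin.succ_pos i) m hm s hs)
              (fun i _ => by
                have h4 : (F i.succ).card ≤ ∑ i : Fin k, (F i.succ).card :=
                  Finset.single_le_sum (f := fun i : Fin k => (F i.succ).card) (fun _ _ => Nat.zero_le _)
                    (Finset.mem_univ i)
                show (F i.succ).card ≤ _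
                omega)
            have e : (fun i => ∑ j ∈ F i, y (σ j)) = Fin.cons (α := fun _ => M) (y (σ m))
                (fun i => ∑ j ∈ F i.succ, y (σ j)) := by
              funext i
              refine Fin.cases ?_ (fun i => ?_) i
              · rw [Fin.cons_zero, hsing, Finset.sum_singleton]
              · rw [Fin.cons_succ]
            rw [e]
            exact h3
          · set F' : Fin (k + 1) → Finset ℕ := Fin.cons (α := fun _ => Finset ℕ) ((F 0).erase m)
              (fun i => F i.succ) with hF'
            have hF0 : F' 0 = (F 0).erase m := by rw [hF', Fin.cons_zero]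
            have hFs : ∀ i : Fin k, F' i.succ = F i.succ := fun i => by rw [hF', Fin.cons_succ]
            have hne : ((F 0).erase m).Nonempty := by
              rw [Finset.nonempty_iff_ne_empty]
              intro he
              apply hsing
              rw [Finset.erase_eq_empty_iff] at he
              rcases he with he | he
              · exact absurd he (hF 0).ne_empty
              · exact he
            have hsubF : ∀ i, F' i ⊆ F i := by
              intro i
              refine Fin.cases ?_ (fun i => ?_) i
              · rw [hF0]; exact Finset.erase_subset _ _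
              · rw [hFs]
            have h3 := ihc _ (m + 1) ho2 F' (by
                intro i
                refine Fin.cases ?_ (fun i => ?_) i
                · rw [hF0]; exact hne
                · rw [hFs]; exact hF _)
              (fun i j hij s hs t ht => hlt i j hij s (hsubF i hs) t (hsubF j ht))
              (by
                intro i
                refine Fin.cases ?_ (fun i => ?_) i
                · intro s hs
                  rw [hF0, Finset.mem_erase] at hs
                  have := hmin s hs.2
                  omega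
                · intro s hs
                  rw [hFs] at hs
                  exact hlt 0 i.succ (Fin.succ_pos i) m hm s hs)
              (by
                intro i hi
                have hi0 : i = 0 := Fin.ext hi
                subst hi0
                rw [hF0, Finset.card_erase_of_mem hm]
                have := hc 0 rfl
                omega)
            have e : (fun i => ∑ j ∈ F i, y (σ j)) = Fin.cons (α := fun _ => M)
                (y (σ m) + (fun i => ∑ j ∈ F' i, y (σ j)) 0) (Fin.tail (fun i => ∑ j ∈ F' i, y (σ j))) := by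
              funext i
              refine Fin.cases ?_ (fun i => ?_) i
              · rw [Fin.cons_zero]
                show ∑ j ∈ F 0, y (σ j) = y (σ m) + ∑ j ∈ F' 0, y (σ j)
                rw [hF0]
                exact (Finset.add_sum_erase (F 0) (fun j => y (σ j)) hm).symm
              · rw [Fin.cons_succ]
                simp only [Fin.tail, hFs]
            rw [e]
            exact h3
    intro a o ho F h1 h2 h3
    exact key o.1 (∑ i, (F i).card) o.2 a (hEa a o ho) F h1 h2 h3 (fun i _ =>
      Finset.single_le_sum (f := fun i => (F i).card) (fun _ _ => Nat.zero_le _) (Finset.mem_univ i))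

end Diag

end Pool.Agent.H469S
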