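import Mathlib
import Pool.Agent.H469S.Tower

/-!
# The four classes property along iterated limits

`D4 N Dz`: the four classes property of a predicate on the integers. Functions which are jointly additive in
some of their variables.
-/

set_option autoImplicit false

namespace Pool.Agent.H469S

open Filter Finset

attribute [local instance] Ultrafilter.mul Ultrafilter.add
attribute [local instance] Ultrafilter.semigroup Ultrafilter.addSemigroup

/-- the four classes property of a predicate on the integers -/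
def D4 (N : ℕ) (Dz : ℤ → Prop) : Prop :=
  ∃ r : ℕ, 1 ≤ r ∧ ∃ Λ : ℕ, 0 < Λ ∧ ∀ P : Fin 4 → Fin r → ℤ,
    Function.Injective (fun x : Fin 4 × Fin r => P x.1 x.2) → (∀ g i, (N : ℤ) ∣ P g i) →
    (∀ g i i', (Λ : ℤ) ∣ P g i - P g i') → ∃ g g' i i', g < g' ∧ Dz (P g' i' - P g i)

/-- joint additivity in the variables from `J` -/
def AddIn {A B : Type*} [Add A] [Add B] {k : ℕ} (J : Finset (Fin k)) (f : (Fin k → A) → B) : Prop :=
  ∀ u v : Fin k → A, (∀ j, j ∉ J → u j = v j) →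
    f (fun j => if j ∈ J then u j + v j else u j) = f u + f v

set_option linter.unusedSectionVars false

section

variable {M : Type*} [AddCommMonoid M] {U : Ultrafilter M} {W : Ultrafilter ℕ}

theorem evw_not {k : ℕ} {Pr : (Fin k → M) → ℕ → Prop}
    (h : ¬ EvU U k (fun v => ∀ᶠ K in (W : Filter ℕ), Pr v K)) :
    EvU U k (fun v => ∀ᶠ K in (W : Filter ℕ), ¬ Pr v K) := by
  rw [EvU.not] at h
  exact h.mono fun v hv => by rwa [← Ultrafilter.eventually_not] at hv

theorem evw_all {ι : Type*} [Fintype ι] {k : ℕ} {Pr : ι → (Fin k → M) → ℕ → Prop}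
    (h : ∀ i, EvU U k (fun v => ∀ᶠ K in (W : Filter ℕ), Pr i v K)) :
    EvU U k (fun v => ∀ᶠ K in (W : Filter ℕ), ∀ i, Pr i v K) := by
  have h1 := EvU.all_finset (U := U) (univ : Finset ι) (fun i _ => h i)
  refine h1.mono fun v hv => ?_
  rw [Filter.eventually_all]
  exact fun i => hv i (mem_univ i)

theorem evw_and {k : ℕ} {Pr Pr' : (Fin k → M) → ℕ → Prop}
    (h : EvU U k (fun v => ∀ᶠ K in (W : Filter ℕ), Pr v K))
    (h' : EvU U k (fun v => ∀ᶠ K in (W : Filter ℕ), Pr' v K)) :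
    EvU U k (fun v => ∀ᶠ K in (W : Filter ℕ), Pr v K ∧ Pr' v K) :=
  (h.and h').mono fun _ hv => hv.1.and hv.2

theorem f_wv {k : ℕ} {J : Finset (Fin k)} {f : (Fin k → M) → ℕ → ℤ} (hf : AddIn J f)
    (u : Fin k → ℕ → M) {t t' : ℕ} (h : t ≤ t') :
    f (wv J u 0 t') = f (wv J u 0 t) + f (wv J u t t') := by
  rw [wv_add J u (Nat.zero_le t) h]
  apply hf
  intro j hj
  simp only [wv, hj, if_false]

/-- independence of the variables from `J` -/
def IndepOf {A B : Type*} {k : ℕ} (J : Finset (Fin k)) (f : (Fin k → A) → B) : Prop :=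
  ∀ u v : Fin k → A, (∀ j, j ∉ J → u j = v j) → f u = f v

theorem extract (hU : U + U = U) {k : ℕ} {J : Finset (Fin k)} {f : (Fin k → M) → ℕ → ℤ} (hf : AddIn J f)
    {e : Fin 4 → (Fin k → M) → ℕ → ℤ} (he : ∀ i, IndepOf J (e i))
    (Pr : (Fin 4 → ℤ) → ℤ → Prop)
    (h : EvU U k (fun v => ∀ᶠ K in (W : Filter ℕ), Pr (fun i => e i v K) (f v K))) (r : ℕ) :
    ∃ (F : ℕ → ℤ) (E : Fin 4 → ℤ), ∀ t t', t < t' → t' ≤ r → Pr E (F t' - F t) := by
  obtain ⟨u, hu⟩ := tower hU r k J (fun _ _ v => ∀ᶠ K in (W : Filter ℕ), Pr (fun i => e i v K) (f v K))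
    (fun _ _ _ _ => h)
  have h1 : ∀ᶠ K in (W : Filter ℕ), ∀ p ∈ (range (r + 1) ×ˢ range (r + 1)), p.1 < p.2 →
      Pr (fun i => e i (wv J u p.1 p.2) K) (f (wv J u p.1 p.2) K) := by
    rw [Filter.eventually_all_finset]
    rintro ⟨g, g'⟩ hp
    rw [mem_product, mem_range, mem_range] at hp
    by_cases hlt : g < g'
    · have h2 := hu g g' hlt (by have := hp.2; simp only at this; omega)
      exact h2.mono fun s hs _ => hs
    · exact Filter.Eventually.of_forall fun s hs => absurd hs hlt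
  obtain ⟨K, hK⟩ := h1.exists
  refine ⟨fun t => f (wv J u 0 t) K, fun i => e i (wv J u 0 0) K, fun t t' h1 h2 => ?_⟩
  have h3 := hK (t, t') (by rw [mem_product, mem_range, mem_range]; constructor <;> simp only <;> omega) h1
  have h4 := congrFun (f_wv hf u h1.le) K
  rw [Pi.add_apply] at h4
  have h5 : f (wv J u 0 t') K - f (wv J u 0 t) K = f (wv J u t t') K := by rw [h4]; ring
  have h6 : (fun i => e i (wv J u 0 0) K) = fun i => e i (wv J u t t') K := by
    funext i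
    rw [he i (wv J u 0 0) (wv J u t t') (fun j hj => by simp only [wv, hj, if_false])]
  show Pr (fun i => e i (wv J u 0 0) K) (f (wv J u 0 t') K - f (wv J u 0 t) K)
  rw [h5, h6]
  exact h3

theorem ev_dvd (hU : U + U = U) {k : ℕ} {J : Finset (Fin k)} {f : (Fin k → M) → ℕ → ℤ} (hf : AddIn J f)
    (Λ : ℕ) (hΛ : 0 < Λ) : EvU U k (fun v => ∀ᶠ K in (W : Filter ℕ), (Λ : ℤ) ∣ f v K) := by
  by_contra hcon
  obtain ⟨F, E, hF⟩ := extract (W := W) hU hf (e := fun _ _ _ => 0) (fun _ _ _ _ => rfl)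
    (fun _ z => ¬ (Λ : ℤ) ∣ z) (evw_not hcon) Λ
  have hΛ0 : (Λ : ℤ) ≠ 0 := by exact_mod_cast hΛ.ne'
  have hcard : (range Λ).card < (range (Λ + 1)).card := by simp
  have hmaps : ∀ t ∈ range (Λ + 1), (F t % Λ).toNat ∈ range Λ := by
    intro t _
    have h7 := Int.emod_nonneg (F t) hΛ0
    have h8 := Int.emod_lt_of_pos (F t) (by exact_mod_cast hΛ : (0 : ℤ) < Λ)
    rw [mem_range]
    omega
  obtain ⟨t, ht, t', ht', hne, heq⟩ := Finset.exists_ne_map_eq_of_card_lt_of_maps_to hcard hmaps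
  rw [mem_range] at ht ht'
  have h1 : F t % Λ = F t' % Λ := by
    have h7 := Int.emod_nonneg (F t) hΛ0
    have h8 := Int.emod_nonneg (F t') hΛ0
    omega
  rcases lt_or_gt_of_ne hne with hlt | hlt
  · exact hF t t' hlt (by omega) ((Int.ModEq.dvd (h1 : F t ≡ F t' [ZMOD Λ])))
  · exact hF t' t hlt (by omega) ((Int.ModEq.dvd (h1.symm : F t' ≡ F t [ZMOD Λ])))

theorem ev_ne (hU : U + U = U) {k : ℕ} {J : Finset (Fin k)} {f : (Fin k → M) → ℕ → ℤ} (hf : AddIn J f)
    {e : Fin 4 → (Fin k → M) → ℕ → ℤ} (he : ∀ i, IndepOf J (e i))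
    (hne : EvU U k (fun v => ∀ᶠ K in (W : Filter ℕ), f v K ≠ 0)) (N : ℤ) (i j : Fin 4) :
    EvU U k (fun v => ∀ᶠ K in (W : Filter ℕ), f v K + N * (e j v K - e i v K) ≠ 0) := by
  by_contra hcon
  obtain ⟨F, E, hF⟩ := extract (W := W) hU hf he (fun E z => z ≠ 0 ∧ ¬ z + N * (E j - E i) ≠ 0)
    (evw_and hne (evw_not hcon)) 2
  have h1 := hF 0 1 (by norm_num) (by norm_num)
  have h2 := hF 1 2 (by norm_num) (by norm_num)
  have h3 := hF 0 2 (by norm_num) (by norm_num)
  have a1 := not_not.1 h1.2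
  have a2 := not_not.1 h2.2
  have a3 := not_not.1 h3.2
  have b1 := h1.1
  apply b1
  linarith

theorem core4 (hU : U + U = U) {N : ℕ} (hN : 0 < N) {Dz : ℤ → Prop} (hD : D4 N Dz) {k : ℕ}
    {J : Finset (Fin k)} {f : (Fin k → M) → ℕ → ℤ} (hf : AddIn J f)
    {e : Fin 4 → (Fin k → M) → ℕ → ℤ} (he : ∀ i, IndepOf J (e i))
    (hne : EvU U k (fun v => ∀ᶠ K in (W : Filter ℕ), f v K ≠ 0)) :
    ∃ i j, i < j ∧ EvU U k (fun v => ∀ᶠ K in (W : Filter ℕ), Dz (f v K + N * (e j v K - e i v K))) := by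
  by_contra hcon
  push Not at hcon
  obtain ⟨r, hr, Λ, hΛ, hP⟩ := hD
  have h1 : ∀ p : Fin 4 × Fin 4, EvU U k (fun v => ∀ᶠ K in (W : Filter ℕ),
      p.1 < p.2 → ¬ Dz (f v K + N * (e p.2 v K - e p.1 v K))) := by
    intro p
    by_cases hp : p.1 < p.2
    · have h2 := evw_not (hcon p.1 p.2 hp)
      exact h2.mono fun v hv => hv.mono fun K hK _ => hK
    · exact EvU.of_forall fun v => Filter.Eventually.of_forall fun K h => absurd h hp
  have h2 : ∀ p : Fin 4 × Fin 4, EvU U k (fun v => ∀ᶠ K in (W : Filter ℕ),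
      f v K + N * (e p.2 v K - e p.1 v K) ≠ 0) := fun p => ev_ne hU hf he hne _ _ _
  have h3 := ev_dvd (W := W) hU hf (Λ * N) (Nat.mul_pos hΛ hN)
  have h4 := evw_and (evw_and (evw_all h1) (evw_all h2)) (evw_and h3 hne)
  obtain ⟨F, c, hF⟩ := extract (W := W) hU hf he (fun c z => ((∀ p : Fin 4 × Fin 4, p.1 < p.2 →
    ¬ Dz (z + N * (c p.2 - c p.1))) ∧ ∀ p : Fin 4 × Fin 4, z + N * (c p.2 - c p.1) ≠ 0) ∧
    (((Λ * N : ℕ) : ℤ) ∣ z ∧ z ≠ 0)) h4 (4 * r)
  have hidx : ∀ (g : Fin 4) (i : Fin r), (g : ℕ) * r + i ≤ 4 * r := by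
    intro g i
    have h5 : (g : ℕ) + 1 ≤ 4 := g.2
    have h6 := Nat.mul_le_mul_right r h5
    have h7 := i.2
    have h8 : ((g : ℕ) + 1) * r = (g : ℕ) * r + r := by ring
    omega
  have hlt : ∀ (g g' : Fin 4) (i i' : Fin r), g < g' → (g : ℕ) * r + i < (g' : ℕ) * r + i' := by
    intro g g' i i' hgg
    have h5 : (g : ℕ) + 1 ≤ g' := hgg
    have h6 := Nat.mul_le_mul_right r h5
    have h7 := i.2
    have h8 : ((g : ℕ) + 1) * r = (g : ℕ) * r + r := by ring
    omega
  have hdv : ∀ t, t ≤ 4 * r → ((Λ * N : ℕ) : ℤ) ∣ F t - F 0 := by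
    intro t ht
    rcases Nat.eq_zero_or_pos t with rfl | h0
    · simp
    · exact (hF 0 t h0 ht).2.1
  have hdN : (N : ℤ) ∣ ((Λ * N : ℕ) : ℤ) := by exact_mod_cast Dvd.intro_left Λ rfl
  have hdΛ : (Λ : ℤ) ∣ ((Λ * N : ℕ) : ℤ) := by exact_mod_cast Dvd.intro N rfl
  obtain ⟨g, g', i, i', hgg, hDz⟩ := hP (fun g i => N * c g + (F ((g : ℕ) * r + i) - F 0)) (by
      rintro ⟨g, i⟩ ⟨g', i'⟩ hxy
      simp only at hxy
      rcases lt_trichotomy g g' with hg | hg | hg
      · exfalso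
        have h5 := (hF _ _ (hlt g g' i i' hg) (hidx g' i')).1.2 (g, g')
        simp only at h5
        apply h5
        linarith
      · subst hg
        rcases lt_trichotomy i i' with hi | hi | hi
        · exfalso
          have h5 := (hF ((g : ℕ) * r + i) ((g : ℕ) * r + i')
            (by have : (i : ℕ) < i' := hi; omega) (hidx g i')).2.2
          apply h5
          linarith
        · rw [hi]
        · exfalso
          have h5 := (hF ((g : ℕ) * r + i') ((g : ℕ) * r + i)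
            (by have : (i' : ℕ) < i := hi; omega) (hidx g i)).2.2
          apply h5
          linarith
      · exfalso
        have h5 := (hF _ _ (hlt g' g i' i hg) (hidx g i)).1.2 (g', g)
        simp only at h5
        apply h5
        linarith)
    (fun g i => by
      apply dvd_add (Dvd.intro _ rfl)
      exact hdN.trans (hdv _ (hidx g i)))
    (fun g i i' => by
      have h5 := hdΛ.trans (hdv _ (hidx g i))
      have h6 := hdΛ.trans (hdv _ (hidx g i'))
      have e : N * c g + (F ((g : ℕ) * r + i) - F 0) - (N * c g + (F ((g : ℕ) * r + i') - F 0)) =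
        (F ((g : ℕ) * r + i) - F 0) - (F ((g : ℕ) * r + i') - F 0) := by ring
      rw [e]
      exact dvd_sub h5 h6)
  have h5 := (hF _ _ (hlt g g' i i' hgg) (hidx g' i')).1.1 (g, g') hgg
  apply h5
  have e : F ((g' : ℕ) * r + i') - F ((g : ℕ) * r + i) + N * (c g' - c g) =
    N * c g' + (F ((g' : ℕ) * r + i') - F 0) - (N * c g + (F ((g : ℕ) * r + i) - F 0)) := by ring
  simp only
  rw [e]
  exact hDz

end

end Pool.Agent.H469S
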