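import Mathlib
import Pool.Agent.H469S.Tower

/-! An idempotent ultrafilter on the finite sets of natural numbers (as multisets) tending to infinity. -/

set_option autoImplicit false

namespace Pool.Agent.H469S

open Filter Finset

attribute [local instance] Ultrafilter.mul Ultrafilter.add
attribute [local instance] Ultrafilter.semigroup Ultrafilter.addSemigroup

/-- `s` is a nonempty set of numbers `≥ n` -/
def Good (n : ℕ) (s : Multiset ℕ) : Prop := s.Nodup ∧ s ≠ 0 ∧ ∀ t ∈ s, n ≤ t

theorem Good.mono {m n : ℕ} (h : m ≤ n) {s : Multiset ℕ} (hs : Good n s) : Good m s :=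
  ⟨hs.1, hs.2.1, fun t ht => h.trans (hs.2.2 t ht)⟩

theorem Good.add {n : ℕ} {s t : Multiset ℕ} (hs : Good n s) (ht : Good (s.sum + 1) t) : Good n (s + t) := by
  have hlt : ∀ a ∈ s, ∀ b ∈ t, a < b := by
    intro a ha b hb
    have h1 := Multiset.single_le_sum (fun x _ => Nat.zero_le x) a ha
    have h2 := ht.2.2 b hb
    omega
  refine ⟨?_, ?_, ?_⟩
  · rw [Multiset.nodup_add]
    refine ⟨hs.1, ht.1, ?_⟩
    rw [Multiset.disjoint_left]
    intro a ha hb
    exact lt_irrefl _ (hlt a ha a hb)
  · intro h
    apply hs.2.1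
    have h1 := congrArg Multiset.card h
    rw [Multiset.card_add, Multiset.card_zero] at h1
    exact Multiset.card_eq_zero.1 (by omega)
  · intro b hb
    rcases Multiset.mem_add.1 hb with hb | hb
    · exact hs.2.2 b hb
    · obtain ⟨a, ha⟩ := Multiset.exists_mem_of_ne_zero hs.2.1
      have := hlt a ha b hb
      have := hs.2.2 a ha
      omega

theorem exists_idem : ∃ U : Ultrafilter (Multiset ℕ), U + U = U ∧ ∀ n, ∀ᶠ s in (U : Filter (Multiset ℕ)), Good n s := by
  let S : Set (Ultrafilter (Multiset ℕ)) := ⋂ n, { U | ∀ᶠ m in (U : Filter (Multiset ℕ)), Good n m }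
  have h := exists_idempotent_in_compact_add_subsemigroup
    (M := Ultrafilter (Multiset ℕ)) Ultrafilter.continuous_add_left S ?_ ?_ ?_
  · rcases h with ⟨U, hU, U_idem⟩
    exact ⟨U, U_idem, fun n => Set.mem_iInter.mp hU n⟩
  · apply IsCompact.nonempty_iInter_of_sequence_nonempty_isCompact_isClosed
    · intro n U hU
      have hU' : ∀ᶠ m in (U : Filter (Multiset ℕ)), Good (n + 1) m := hU
      show ∀ᶠ m in (U : Filter (Multiset ℕ)), Good n m
      filter_upwards [hU'] with m hm
      exact hm.mono (Nat.le_succ n)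
    · intro n
      refine ⟨pure {n}, ?_⟩
      show ∀ᶠ m in ((pure {n} : Ultrafilter (Multiset ℕ)) : Filter (Multiset ℕ)), Good n m
      have : Good n ({n} : Multiset ℕ) := ⟨Multiset.nodup_singleton n, Multiset.singleton_ne_zero n,
        fun t ht => by rw [Multiset.mem_singleton] at ht; omega⟩
      simpa using this
    · exact (ultrafilter_isClosed_basic _).isCompact
    · intro n
      apply ultrafilter_isClosed_basic
  · exact IsClosed.isCompact (isClosed_iInter fun i => ultrafilter_isClosed_basic _)
  · intro U hU V hV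
    rw [Set.mem_iInter] at *
    intro n
    have hU' : ∀ᶠ m in (U : Filter (Multiset ℕ)), Good n m := hU n
    show ∀ᶠ m in ((U + V : Ultrafilter (Multiset ℕ)) : Filter (Multiset ℕ)), Good n m
    rw [Ultrafilter.eventually_add]
    filter_upwards [hU'] with m hm
    have hV' : ∀ᶠ m' in (V : Filter (Multiset ℕ)), Good (m.sum + 1) m' := hV _
    filter_upwards [hV'] with m' hm'
    exact hm.add hm'

end Pool.Agent.H469S
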