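import Mathlib
import Pool.Agent.H469S.Core
import Pool.Agent.H469S.Idem

/-!
# The uniform finite theorem, for a predicate on the integers with the four classes property
-/

set_option autoImplicit false

namespace Pool.Agent.H469S

open Filter Finset

attribute [local instance] Ultrafilter.mul Ultrafilter.add
attribute [local instance] Ultrafilter.semigroup Ultrafilter.addSemigroup

/-- increasing sequences of nonempty finite sets -/
def Blocks {ι : Type*} [LT ι] {k : ℕ} (F : Fin k → Finset ι) : Prop :=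
  (∀ i, (F i).Nonempty) ∧ ∀ i j, i < j → ∀ s ∈ F i, ∀ t ∈ F j, s < t

/-- the vector of the sums over the unions of the `H j`, `j ∈ F l` -/
def vec {A : Type*} [AddCommMonoid A] {m k : ℕ} (H : Fin m → Finset ℕ) (x : ℕ → A)
    (F : Fin k → Finset (Fin m)) : Fin k → A :=
  fun l => ∑ j ∈ F l, ∑ t ∈ H j, x t

theorem le_of_blocks {m k : ℕ} {F : Fin k → Finset (Fin m)} (hF : Blocks F) : k ≤ m := by
  choose g hg using hF.1
  have hinj : Function.Injective g := by
    intro i j hij
    by_contra hne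
    rcases lt_or_gt_of_ne hne with h | h
    · exact absurd (hF.2 i j h _ (hg i) _ (hg j)) (by rw [hij]; exact lt_irrefl _)
    · exact absurd (hF.2 j i h _ (hg j) _ (hg i)) (by rw [hij]; exact lt_irrefl _)
  simpa using Fintype.card_le_of_injective g hinj

/-- the data of the theorem -/
structure Data (m : ℕ) where
  A : Type
  inst : AddCommMonoid A
  f : Fin m → (k : ℕ) → (Fin k → A) → ℤ
  e : Fin m → (k : ℕ) → Fin 4 → (Fin k → A) → ℤ
  J : Fin m → (k : ℕ) → Finset (Fin k)
  hf : ∀ b k, AddIn (J b k) (f b k)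
  he : ∀ b k i, IndepOf (J b k) (e b k i)
  x : ℕ → A

attribute [instance] Data.inst

/-- the conclusion for given data and bound -/
def Holds (N : ℕ) (Dz : ℤ → Prop) {m : ℕ} (D : Data m) (K : ℕ) : Prop :=
  ∃ H : Fin m → Finset ℕ, Blocks H ∧ (∀ i, ∀ t ∈ H i, t < K) ∧
    ∀ b k, (∀ F : Fin k → Finset (Fin m), Blocks F → D.f b k (vec H D.x F) = 0) ∨
      ∃ i j, i < j ∧ ∀ F : Fin k → Finset (Fin m), Blocks F →
        Dz (D.f b k (vec H D.x F) + N * (D.e b k j (vec H D.x F) - D.e b k i (vec H D.x F)))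

/-- the sum over a multiset -/
def X {m : ℕ} (D : Data m) : Multiset ℕ →+ D.A where
  toFun s := (s.map D.x).sum
  map_zero' := by simp
  map_add' s t := by rw [Multiset.map_add, Multiset.sum_add]

section

variable {m : ℕ} (D : ℕ → Data m)

open Classical in
/-- the functions at the limit -/
noncomputable def fs (b : Fin m) (k : ℕ) (J0 : Finset (Fin k)) (v : Fin k → Multiset ℕ) (K : ℕ) : ℤ :=
  if (D K).J b k = J0 then (D K).f b k (fun i => X (D K) (v i)) else 0

open Classical in
noncomputable def es (b : Fin m) (k : ℕ) (J0 : Finset (Fin k)) (i : Fin 4) (v : Fin k → Multiset ℕ)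
    (K : ℕ) : ℤ :=
  if (D K).J b k = J0 then (D K).e b k i (fun i => X (D K) (v i)) else 0

theorem fs_add (b : Fin m) (k : ℕ) (J0 : Finset (Fin k)) : AddIn J0 (fs D b k J0) := by
  intro u v huv
  funext K
  rw [Pi.add_apply]
  by_cases h : (D K).J b k = J0
  · simp only [fs, h, if_true]
    have h1 := (D K).hf b k (fun i => X (D K) (u i)) (fun i => X (D K) (v i)) (by
      intro j hj
      rw [h] at hj
      show X (D K) (u j) = X (D K) (v j)
      rw [huv j hj])
    rw [← h1]
    congr 1
    funext j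
    rw [h]
    by_cases hj : j ∈ J0
    · simp only [hj, if_true, map_add]
    · simp only [hj, if_false]
  · simp only [fs, h, if_false, add_zero]

theorem es_indep (b : Fin m) (k : ℕ) (J0 : Finset (Fin k)) (i : Fin 4) : IndepOf J0 (es D b k J0 i) := by
  intro u v huv
  funext K
  by_cases h : (D K).J b k = J0
  · simp only [es, h, if_true]
    apply (D K).he b k i
    intro j hj
    rw [h] at hj
    show X (D K) (u j) = X (D K) (v j)
    rw [huv j hj]
  · simp only [es, h, if_false]

end

theorem main_data {N : ℕ} (hN : 0 < N) {Dz : ℤ → Prop} (hD : D4 N Dz) (m : ℕ) (D : ℕ → Data m) :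
    ∃ K, Holds N Dz (D K) K := by
  classical
  obtain ⟨U, hU, hgood⟩ := exists_idem
  set W : Ultrafilter ℕ := hyperfilter ℕ with hW
  -- the dichotomy
  have hQ : ∀ (b : Fin m) (k : ℕ) (J0 : Finset (Fin k)), ∃ Q : (Fin k → Multiset ℕ) → ℕ → Prop,
      EvU U k (fun v => ∀ᶠ K in (W : Filter ℕ), Q v K) ∧
      ((∀ v K, Q v K → fs D b k J0 v K = 0) ∨ ∃ i j, i < j ∧ ∀ v K, Q v K →
        Dz (fs D b k J0 v K + N * (es D b k J0 j v K - es D b k J0 i v K))) := by
    intro b k J0
    by_cases h : EvU U k (fun v => ∀ᶠ K in (W : Filter ℕ), fs D b k J0 v K ≠ 0)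
    · obtain ⟨i, j, hij, h1⟩ := core4 (W := W) hU hN hD (fs_add D b k J0) (es_indep D b k J0) h
      exact ⟨_, h1, Or.inr ⟨i, j, hij, fun v K h => h⟩⟩
    · exact ⟨_, evw_not h, Or.inl fun v K h => not_not.1 h⟩
  choose Q hQ1 hQ2 using hQ
  -- the obligations
  set E0 : List (Ob (Multiset ℕ)) := (List.range (m + 1)).flatMap fun k =>
    ((Finset.univ : Finset (Fin m × Finset (Fin k))).toList.map fun p =>
      (⟨k, fun v => ∀ᶠ K in (W : Filter ℕ), Q p.1 k p.2 v K⟩ : Ob (Multiset ℕ))) with hE0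
  have hE : ∀ a : ℕ, ∀ o ∈ (fun _ : ℕ => E0) a, Ok U o := by
    intro a o ho
    simp only [hE0, List.mem_flatMap, List.mem_map] at ho
    obtain ⟨k, -, p, -, rfl⟩ := ho
    exact hQ1 p.1 k p.2
  obtain ⟨y, hy1, hy2⟩ := diag hU (fun s y => Good (s.sum + 1) y) (fun s => hgood _) (fun _ => E0) hE
  have hmem : ∀ (b : Fin m) (k : ℕ) (J0 : Finset (Fin k)), k ≤ m →
      (⟨k, fun v => ∀ᶠ K in (W : Filter ℕ), Q b k J0 v K⟩ : Ob (Multiset ℕ)) ∈ E0 := by
    intro b k J0 hk
    simp only [hE0, List.mem_flatMap, List.mem_map]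
    exact ⟨k, List.mem_range.2 (by omega), (b, J0), Finset.mem_toList.2 (Finset.mem_univ _), rfl⟩
  -- the blocks
  let H : Fin m → Finset ℕ := fun n => (y n).toFinset
  have hHlt : Blocks H := by
    constructor
    · intro i
      have h1 := (hy1 i).2.1
      obtain ⟨t, ht⟩ := Multiset.exists_mem_of_ne_zero h1
      exact ⟨t, Multiset.mem_toFinset.2 ht⟩
    · intro i j hij s hs t ht
      have hs' : s ∈ y i := Multiset.mem_toFinset.1 hs
      have ht' : t ∈ y j := Multiset.mem_toFinset.1 ht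
      have h1 := (hy1 j).2.2 t ht'
      have h2 : s ≤ (∑ l ∈ range (j : ℕ), y l).sum := by
        have h3 : s ∈ ∑ l ∈ range (j : ℕ), y l := by
          rw [Multiset.mem_sum]
          exact ⟨i, Finset.mem_range.2 hij, hs'⟩
        exact Multiset.single_le_sum (fun x _ => Nat.zero_le x) s h3
      omega
  let vc : (k : ℕ) → (Fin k → Finset (Fin m)) → (Fin k → Multiset ℕ) := fun k F l => ∑ j ∈ F l, y j
  have hXv : ∀ (K k : ℕ) (F : Fin k → Finset (Fin m)),
      (fun i => X (D K) (vc k F i)) = vec H (D K).x F := by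
    intro K k F
    funext l
    show X (D K) (∑ j ∈ F l, y j) = ∑ j ∈ F l, ∑ t ∈ H j, (D K).x t
    rw [map_sum]
    refine Finset.sum_congr rfl fun j _ => ?_
    show ((y j).map (D K).x).sum = ((y j).toFinset.val.map (D K).x).sum
    rw [Multiset.toFinset_val, ((hy1 j).1).dedup]
  have hev : ∀ᶠ K in (W : Filter ℕ), ∀ k ∈ Finset.range (m + 1), ∀ (b : Fin m) (J0 : Finset (Fin k))
      (F : Fin k → Finset (Fin m)), Blocks F → Q b k J0 (vc k F) K := by
    rw [Filter.eventually_all_finset]
    intro k hk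
    rw [Finset.mem_range] at hk
    rw [Filter.eventually_all]
    intro b
    rw [Filter.eventually_all]
    intro J0
    rw [Filter.eventually_all]
    intro F
    by_cases hF : Blocks F
    · have h1 := hy2 0 _ (hmem b k J0 (by omega)) (fun i => (F i).map Fin.valEmbedding)
        (fun i => (hF.1 i).map)
        (by
          intro i j hij s hs t ht
          rw [Finset.mem_map] at hs ht
          obtain ⟨s', hs', rfl⟩ := hs
          obtain ⟨t', ht', rfl⟩ := ht
          exact hF.2 i j hij s' hs' t' ht')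
        (fun i s _ => Nat.zero_le s)
      have e : (fun i => ∑ j ∈ (F i).map Fin.valEmbedding, y j) = vc k F := by
        funext i
        rw [Finset.sum_map]
        rfl
      simp only at h1
      rw [e] at h1
      exact h1.mono fun K hK _ => hK
    · exact Filter.Eventually.of_forall fun K h => absurd h hF
  have hge : ∀ᶠ K in (W : Filter ℕ), ∀ i, ∀ t ∈ H i, t < K := by
    have h1 : ∀ᶠ K in (W : Filter ℕ), (∑ i, (y (i : Fin m)).sum) < K := by
      have h2 : ∀ᶠ K in (atTop : Filter ℕ), (∑ i, (y (i : Fin m)).sum) < K := eventually_gt_atTop _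
      rw [← Nat.cofinite_eq_atTop] at h2
      exact Filter.Eventually.filter_mono (Filter.hyperfilter_le_cofinite) h2
    refine h1.mono fun K hK i t ht => ?_
    have h2 : t ≤ (y i).sum := Multiset.single_le_sum (fun x _ => Nat.zero_le x) t (Multiset.mem_toFinset.1 ht)
    have h3 : (y i).sum ≤ ∑ i, (y (i : Fin m)).sum :=
      Finset.single_le_sum (f := fun i : Fin m => (y i).sum) (fun _ _ => Nat.zero_le _) (Finset.mem_univ i)
    omega
  obtain ⟨K, hK1, hK2⟩ := (hev.and hge).exists
  refine ⟨K, H, hHlt, hK2, fun b k => ?_⟩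
  by_cases hk : k ≤ m
  · rcases hQ2 b k ((D K).J b k) with h | ⟨i, j, hij, h⟩
    · left
      intro F hF
      have h1 := h _ _ (hK1 k (Finset.mem_range.2 (by omega)) b ((D K).J b k) F hF)
      simp only [fs, if_true, hXv] at h1
      exact h1
    · right
      refine ⟨i, j, hij, fun F hF => ?_⟩
      have h1 := h _ _ (hK1 k (Finset.mem_range.2 (by omega)) b ((D K).J b k) F hF)
      simp only [fs, es, if_true, hXv] at h1
      exact h1
  · left
    intro F hF
    exact absurd (le_of_blocks hF) hk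

theorem main {N : ℕ} (hN : 0 < N) {Dz : ℤ → Prop} (hD : D4 N Dz) (m : ℕ) :
    ∃ K : ℕ, ∀ (A : Type) [AddCommMonoid A] (f : Fin m → (k : ℕ) → (Fin k → A) → ℤ)
      (e : Fin m → (k : ℕ) → Fin 4 → (Fin k → A) → ℤ) (J : Fin m → (k : ℕ) → Finset (Fin k)),
      (∀ b k, AddIn (J b k) (f b k)) → (∀ b k i, IndepOf (J b k) (e b k i)) →
      ∀ x : ℕ → A, ∃ H : Fin m → Finset ℕ, Blocks H ∧ (∀ i, ∀ t ∈ H i, t < K) ∧
        ∀ b k, (∀ F : Fin k → Finset (Fin m), Blocks F → f b k (vec H x F) = 0) ∨
          ∃ i j, i < j ∧ ∀ F : Fin k → Finset (Fin m), Blocks F →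
            Dz (f b k (vec H x F) + N * (e b k j (vec H x F) - e b k i (vec H x F))) := by
  by_contra hcon
  have h1 : ∀ K : ℕ, ∃ D : Data m, ¬ Holds N Dz D K := by
    intro K
    by_contra h
    push Not at h
    apply hcon
    exact ⟨K, fun A inst f e J hf he x => h ⟨A, inst, f, e, J, hf, he, x⟩⟩
  choose D hDK using h1
  obtain ⟨K, hK⟩ := main_data hN hD m D
  exact hDK K hK

end Pool.Agent.H469S
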