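import Mathlib
import Pool.Agent.H469S.Main

/-!
# The uniform finite theorem for real valued functions and predicates varying with the index
-/

set_option autoImplicit false

namespace Pool.Agent.H469S

open Filter Finset

attribute [local instance] Ultrafilter.mul Ultrafilter.add
attribute [local instance] Ultrafilter.semigroup Ultrafilter.addSemigroup

set_option linter.unusedSectionVars false

section

variable {M : Type*} [AddCommMonoid M] {U : Ultrafilter M} {W : Ultrafilter ℕ}

theorem f_wvR {k : ℕ} {J : Finset (Fin k)} {f : (Fin k → M) → ℕ → ℝ} (hf : AddIn J f)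
    (u : Fin k → ℕ → M) {t t' : ℕ} (h : t ≤ t') :
    f (wv J u 0 t') = f (wv J u 0 t) + f (wv J u t t') := by
  rw [wv_add J u (Nat.zero_le t) h]
  apply hf
  intro j hj
  simp only [wv, hj, if_false]

theorem extractR (hU : U + U = U) {k : ℕ} {J : Finset (Fin k)} {f : (Fin k → M) → ℕ → ℝ} (hf : AddIn J f)
    (Pr : ℕ → ℝ → Prop)
    (h : EvU U k (fun v => ∀ᶠ K in (W : Filter ℕ), Pr K (f v K))) (r : ℕ) :
    ∀ᶠ K in (W : Filter ℕ), ∃ F : ℕ → ℝ, ∀ t t', t < t' → t' ≤ r → Pr K (F t' - F t) := by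
  obtain ⟨u, hu⟩ := tower hU r k J (fun _ _ v => ∀ᶠ K in (W : Filter ℕ), Pr K (f v K))
    (fun _ _ _ _ => h)
  have h1 : ∀ᶠ K in (W : Filter ℕ), ∀ p ∈ (range (r + 1) ×ˢ range (r + 1)), p.1 < p.2 →
      Pr K (f (wv J u p.1 p.2) K) := by
    rw [Filter.eventually_all_finset]
    rintro ⟨g, g'⟩ hp
    rw [mem_product, mem_range, mem_range] at hp
    by_cases hlt : g < g'
    · have h2 := hu g g' hlt (by have := hp.2; simp only at this; omega)
      exact h2.mono fun s hs _ => hs
    · exact Filter.Eventually.of_forall fun s hs => absurd hs hlt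
  refine h1.mono fun K hK => ⟨fun t => f (wv J u 0 t) K, fun t t' h1 h2 => ?_⟩
  have h3 := hK (t, t') (by rw [mem_product, mem_range, mem_range]; constructor <;> simp only <;> omega) h1
  have h4 := congrFun (f_wvR hf u h1.le) K
  rw [Pi.add_apply] at h4
  have h5 : f (wv J u 0 t') K - f (wv J u 0 t) K = f (wv J u t t') K := by rw [h4]; ring
  show Pr K (f (wv J u 0 t') K - f (wv J u 0 t) K)
  rw [h5]
  exact h3

/-- among `r` points of `[0, 1]` there are two whose difference has the property -/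
def DR (r : ℕ) (Dz : ℝ → Prop) : Prop :=
  ∀ β : Fin r → ℝ, StrictMono β → (∀ j, 0 ≤ β j ∧ β j ≤ 1) → ∃ j j', j < j' ∧ Dz (β j' - β j)

theorem coreR (hU : U + U = U) {Dz : ℕ → ℝ → Prop} {r : ℕ}
    (hD : ∀ᶠ K in (W : Filter ℕ), DR r (Dz K)) {k : ℕ} {J : Finset (Fin k)} {f : (Fin k → M) → ℕ → ℝ}
    (hf : AddIn J f) (h01 : EvU U k (fun v => ∀ᶠ K in (W : Filter ℕ), 0 ≤ f v K ∧ f v K ≤ 1))
    (hne : EvU U k (fun v => ∀ᶠ K in (W : Filter ℕ), f v K ≠ 0)) :
    EvU U k (fun v => ∀ᶠ K in (W : Filter ℕ), Dz K (f v K)) := by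
  by_contra hcon
  have h1 := evw_and (evw_and h01 hne) (evw_not hcon)
  have h2 := extractR (W := W) hU hf (fun K z => ((0 ≤ z ∧ z ≤ 1) ∧ z ≠ 0) ∧ ¬ Dz K z) h1 r
  obtain ⟨K, ⟨F, hF⟩, hDK⟩ := (h2.and hD).exists
  obtain ⟨j, j', hjj, hDz⟩ := hDK (fun j => F j - F 0) (by
      intro i j hij
      have h3 := hF i j hij j.2.le
      have h4 : 0 < F j - F i := lt_of_le_of_ne h3.1.1.1 (Ne.symm h3.1.2)
      show F i - F 0 < F j - F 0
      linarith) (by
      intro j
      rcases Nat.eq_zero_or_pos (j : ℕ) with h0 | h0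
      · show 0 ≤ F j - F 0 ∧ F j - F 0 ≤ 1
        rw [h0]
        constructor <;> norm_num
      · exact (hF 0 j h0 j.2.le).1.1)
  apply (hF j j' hjj j'.2.le).2
  have e : F j' - F j = F j' - F 0 - (F j - F 0) := by ring
  rw [e]
  exact hDz

end

/-- the data of the theorem -/
structure DataR (m : ℕ) where
  A : Type
  inst : AddCommMonoid A
  f : Fin m → (k : ℕ) → (Fin k → A) → ℝ
  J : Fin m → (k : ℕ) → Finset (Fin k)
  hf : ∀ b k, AddIn (J b k) (f b k)
  x : ℕ → A

attribute [instance] DataR.inst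

/-- the values lie in `[0, 1]` -/
def BdR {m : ℕ} (D : DataR m) (K : ℕ) : Prop :=
  ∀ b k (F : Fin k → Finset ℕ), Blocks F → (∀ l, ∀ t ∈ F l, t < K) →
    0 ≤ D.f b k (fun l => ∑ t ∈ F l, D.x t) ∧ D.f b k (fun l => ∑ t ∈ F l, D.x t) ≤ 1

/-- the conclusion for given data and bound -/
def HoldsR (Dz : ℝ → Prop) {m : ℕ} (D : DataR m) (K : ℕ) : Prop :=
  ∃ H : Fin m → Finset ℕ, Blocks H ∧ (∀ i, ∀ t ∈ H i, t < K) ∧
    ∀ b k, (∀ F : Fin k → Finset (Fin m), Blocks F → D.f b k (vec H D.x F) = 0) ∨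
      ∀ F : Fin k → Finset (Fin m), Blocks F → Dz (D.f b k (vec H D.x F))

/-- the sum over a multiset -/
def XR {m : ℕ} (D : DataR m) : Multiset ℕ →+ D.A where
  toFun s := (s.map D.x).sum
  map_zero' := by simp
  map_add' s t := by rw [Multiset.map_add, Multiset.sum_add]

/-- increasing vectors of sets of numbers `≥ n` -/
def Incr (n : ℕ) {k : ℕ} (v : Fin k → Multiset ℕ) : Prop :=
  (∀ i, Good n (v i)) ∧ ∀ i j, i < j → ∀ s ∈ v i, ∀ t ∈ v j, s < t

theorem evU_incr {U : Ultrafilter (Multiset ℕ)} (hU : ∀ n, ∀ᶠ s in (U : Filter (Multiset ℕ)), Good n s)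
    (k : ℕ) : ∀ n, EvU U k (fun v => Incr n v) := by
  induction k with
  | zero => exact fun n => ⟨fun i => Fin.elim0 i, fun i => Fin.elim0 i⟩
  | succ k ih =>
    intro n
    have h1 : ∀ᶠ s in (U : Filter (Multiset ℕ)), EvU U k (fun v => Incr n
        (Fin.cons (α := fun _ => Multiset ℕ) s v : Fin (k + 1) → Multiset ℕ)) := by
      filter_upwards [hU n] with s hs
      refine (ih (max n (s.sum + 1))).mono fun v hv => ⟨?_, ?_⟩
      · intro i
        refine Fin.cases ?_ (fun i => ?_) i
        · rw [Fin.cons_zero]; exact hs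
        · rw [Fin.cons_succ]; exact (hv.1 i).mono (le_max_left _ _)
      · intro i j
        refine Fin.cases ?_ (fun i => ?_) i
        · refine Fin.cases ?_ (fun j => ?_) j
          · intro h; exact absurd h (lt_irrefl _)
          · intro _ a ha b hb
            rw [Fin.cons_zero] at ha
            rw [Fin.cons_succ] at hb
            have h2 := (hv.1 j).2.2 b hb
            have h3 := Multiset.single_le_sum (fun x _ => Nat.zero_le x) a ha
            have h4 := (le_max_right n (s.sum + 1)).trans h2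
            omega
        · refine Fin.cases ?_ (fun j => ?_) j
          · intro h
            exact absurd h (by simp [Fin.lt_def])
          · intro h a ha b hb
            rw [Fin.cons_succ] at ha hb
            exact hv.2 i j (Fin.succ_lt_succ_iff.1 h) a ha b hb
    exact h1

section

variable {m : ℕ} (D : ℕ → DataR m)

open Classical in
/-- the functions at the limit -/
noncomputable def fsR (b : Fin m) (k : ℕ) (J0 : Finset (Fin k)) (v : Fin k → Multiset ℕ) (K : ℕ) : ℝ :=
  if (D K).J b k = J0 then (D K).f b k (fun i => XR (D K) (v i)) else 0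

theorem fsR_add (b : Fin m) (k : ℕ) (J0 : Finset (Fin k)) : AddIn J0 (fsR D b k J0) := by
  intro u v huv
  funext K
  rw [Pi.add_apply]
  by_cases h : (D K).J b k = J0
  · simp only [fsR, h, if_true]
    have h1 := (D K).hf b k (fun i => XR (D K) (u i)) (fun i => XR (D K) (v i)) (by
      intro j hj
      rw [h] at hj
      show XR (D K) (u j) = XR (D K) (v j)
      rw [huv j hj])
    rw [← h1]
    congr 1
    funext j
    rw [h]
    by_cases hj : j ∈ J0
    · simp only [hj, if_true, map_add]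
    · simp only [hj, if_false]
  · simp only [fsR, h, if_false, add_zero]

theorem XR_toFinset {m : ℕ} (D : DataR m) {s : Multiset ℕ} (hs : s.Nodup) :
    XR D s = ∑ t ∈ s.toFinset, D.x t := by
  show (s.map D.x).sum = (s.toFinset.val.map D.x).sum
  rw [Multiset.toFinset_val, hs.dedup]

theorem lt_hyper (n : ℕ) : ∀ᶠ K in ((hyperfilter ℕ : Ultrafilter ℕ) : Filter ℕ), n < K := by
  have h2 : ∀ᶠ K in (atTop : Filter ℕ), n < K := eventually_gt_atTop _
  rw [← Nat.cofinite_eq_atTop] at h2
  exact Filter.Eventually.filter_mono (Filter.hyperfilter_le_cofinite) h2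

theorem fsR_01 (hBd : ∀ K, BdR (D K) K) {U : Ultrafilter (Multiset ℕ)}
    (hU : ∀ n, ∀ᶠ s in (U : Filter (Multiset ℕ)), Good n s) (b : Fin m) (k : ℕ) (J0 : Finset (Fin k)) :
    EvU U k (fun v => ∀ᶠ K in ((hyperfilter ℕ : Ultrafilter ℕ) : Filter ℕ),
      0 ≤ fsR D b k J0 v K ∧ fsR D b k J0 v K ≤ 1) := by
  refine (evU_incr hU k 0).mono fun v hv => ?_
  refine (lt_hyper (∑ i, (v i).sum)).mono fun K hK => ?_
  by_cases h : (D K).J b k = J0
  · simp only [fsR, h, if_true]
    have h1 := hBd K b k (fun l => (v l).toFinset)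
      ⟨fun i => by
        obtain ⟨t, ht⟩ := Multiset.exists_mem_of_ne_zero (hv.1 i).2.1
        exact ⟨t, Multiset.mem_toFinset.2 ht⟩,
       fun i j hij s hs t ht => hv.2 i j hij s (Multiset.mem_toFinset.1 hs) t (Multiset.mem_toFinset.1 ht)⟩
      (by
        intro l t ht
        have h2 : t ≤ (v l).sum :=
          Multiset.single_le_sum (fun x _ => Nat.zero_le x) t (Multiset.mem_toFinset.1 ht)
        have h3 : (v l).sum ≤ ∑ i, (v i).sum :=
          Finset.single_le_sum (f := fun i : Fin k => (v i).sum) (fun _ _ => Nat.zero_le _) (Finset.mem_univ l)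
        omega)
    have e : (fun i => XR (D K) (v i)) = fun l => ∑ t ∈ (v l).toFinset, (D K).x t := by
      funext l
      exact XR_toFinset (D K) (hv.1 l).1
    rw [e]
    exact h1
  · simp only [fsR, h, if_false]
    constructor <;> norm_num

end

theorem main_dataR (m : ℕ) (D : ℕ → DataR m) (hBd : ∀ K, BdR (D K) K) {Dz : ℕ → ℝ → Prop} {r : ℕ}
    (hD : ∀ᶠ K in ((hyperfilter ℕ : Ultrafilter ℕ) : Filter ℕ), DR r (Dz K)) :
    ∃ K, HoldsR (Dz K) (D K) K := by
  classical
  obtain ⟨U, hU, hgood⟩ := exists_idem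
  set W : Ultrafilter ℕ := hyperfilter ℕ with hW
  -- the dichotomy
  have hQ : ∀ (b : Fin m) (k : ℕ) (J0 : Finset (Fin k)), ∃ Q : (Fin k → Multiset ℕ) → ℕ → Prop,
      EvU U k (fun v => ∀ᶠ K in (W : Filter ℕ), Q v K) ∧
      ((∀ v K, Q v K → fsR D b k J0 v K = 0) ∨ ∀ v K, Q v K → Dz K (fsR D b k J0 v K)) := by
    intro b k J0
    by_cases h : EvU U k (fun v => ∀ᶠ K in (W : Filter ℕ), fsR D b k J0 v K ≠ 0)
    · have h1 := coreR (W := W) hU hD (fsR_add D b k J0) (fsR_01 D hBd hgood b k J0) h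
      exact ⟨_, h1, Or.inr fun v K h => h⟩
    · exact ⟨_, evw_not h, Or.inl fun v K h => not_not.1 h⟩
  choose Q hQ1 hQ2 using hQ
  -- the obligations
  set E0 : List (Ob (Multiset ℕ)) := (List.range (m + 1)).flatMap fun k =>
    ((Finset.univ : Finset (Fin m × Finset (Fin k))).toList.map fun p =>
      (⟨k, fun v => ∀ᶠ K in (W : Filter ℕ), Q p.1 k p.2 v K⟩ : Ob (Multiset ℕ))) with hE0
  have hE : ∀ a : ℕ, ∀ o ∈ (fun _ : ℕ => E0) a, Ok U o := by
    intro a o ho
    simp only [hE0, List.mem_flatMap, List.mem_map] at ho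
    obtain ⟨k, -, p, -, rfl⟩ := ho
    exact hQ1 p.1 k p.2
  obtain ⟨y, hy1, hy2⟩ := diag hU (fun s y => Good (s.sum + 1) y) (fun s => hgood _) (fun _ => E0) hE
  have hmem : ∀ (b : Fin m) (k : ℕ) (J0 : Finset (Fin k)), k ≤ m →
      (⟨k, fun v => ∀ᶠ K in (W : Filter ℕ), Q b k J0 v K⟩ : Ob (Multiset ℕ)) ∈ E0 := by
    intro b k J0 hk
    simp only [hE0, List.mem_flatMap, List.mem_map]
    exact ⟨k, List.mem_range.2 (by omega), (b, J0), Finset.mem_toList.2 (Finset.mem_univ _), rfl⟩
  -- the blocks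
  let H : Fin m → Finset ℕ := fun n => (y n).toFinset
  have hHlt : Blocks H := by
    constructor
    · intro i
      have h1 := (hy1 i).2.1
      obtain ⟨t, ht⟩ := Multiset.exists_mem_of_ne_zero h1
      exact ⟨t, Multiset.mem_toFinset.2 ht⟩
    · intro i j hij s hs t ht
      have hs' : s ∈ y i := Multiset.mem_toFinset.1 hs
      have ht' : t ∈ y j := Multiset.mem_toFinset.1 ht
      have h1 := (hy1 j).2.2 t ht'
      have h2 : s ≤ (∑ l ∈ range (j : ℕ), y l).sum := by
        have h3 : s ∈ ∑ l ∈ range (j : ℕ), y l := by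
          rw [Multiset.mem_sum]
          exact ⟨i, Finset.mem_range.2 hij, hs'⟩
        exact Multiset.single_le_sum (fun x _ => Nat.zero_le x) s h3
      omega
  let vc : (k : ℕ) → (Fin k → Finset (Fin m)) → (Fin k → Multiset ℕ) := fun k F l => ∑ j ∈ F l, y j
  have hXv : ∀ (K k : ℕ) (F : Fin k → Finset (Fin m)),
      (fun i => XR (D K) (vc k F i)) = vec H (D K).x F := by
    intro K k F
    funext l
    show XR (D K) (∑ j ∈ F l, y j) = ∑ j ∈ F l, ∑ t ∈ H j, (D K).x t
    rw [map_sum]
    exact Finset.sum_congr rfl fun j _ => XR_toFinset (D K) (hy1 j).1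
  have hev : ∀ᶠ K in (W : Filter ℕ), ∀ k ∈ Finset.range (m + 1), ∀ (b : Fin m) (J0 : Finset (Fin k))
      (F : Fin k → Finset (Fin m)), Blocks F → Q b k J0 (vc k F) K := by
    rw [Filter.eventually_all_finset]
    intro k hk
    rw [Finset.mem_range] at hk
    rw [Filter.eventually_all]
    intro b
    rw [Filter.eventually_all]
    intro J0
    rw [Filter.eventually_all]
    intro F
    by_cases hF : Blocks F
    · have h1 := hy2 0 _ (hmem b k J0 (by omega)) (fun i => (F i).map Fin.valEmbedding)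
        (fun i => (hF.1 i).map)
        (by
          intro i j hij s hs t ht
          rw [Finset.mem_map] at hs ht
          obtain ⟨s', hs', rfl⟩ := hs
          obtain ⟨t', ht', rfl⟩ := ht
          exact hF.2 i j hij s' hs' t' ht')
        (fun i s _ => Nat.zero_le s)
      have e : (fun i => ∑ j ∈ (F i).map Fin.valEmbedding, y j) = vc k F := by
        funext i
        rw [Finset.sum_map]
        rfl
      simp only at h1
      rw [e] at h1
      exact h1.mono fun K hK _ => hK
    · exact Filter.Eventually.of_forall fun K h => absurd h hF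
  have hge : ∀ᶠ K in (W : Filter ℕ), ∀ i, ∀ t ∈ H i, t < K := by
    refine (lt_hyper (∑ i, (y (i : Fin m)).sum)).mono fun K hK i t ht => ?_
    have h2 : t ≤ (y i).sum := Multiset.single_le_sum (fun x _ => Nat.zero_le x) t (Multiset.mem_toFinset.1 ht)
    have h3 : (y i).sum ≤ ∑ i, (y (i : Fin m)).sum :=
      Finset.single_le_sum (f := fun i : Fin m => (y i).sum) (fun _ _ => Nat.zero_le _) (Finset.mem_univ i)
    omega
  obtain ⟨K, hK1, hK2⟩ := (hev.and hge).exists
  refine ⟨K, H, hHlt, hK2, fun b k => ?_⟩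
  by_cases hk : k ≤ m
  · rcases hQ2 b k ((D K).J b k) with h | h
    · left
      intro F hF
      have h1 := h _ _ (hK1 k (Finset.mem_range.2 (by omega)) b ((D K).J b k) F hF)
      simp only [fsR, if_true, hXv] at h1
      exact h1
    · right
      intro F hF
      have h1 := h _ _ (hK1 k (Finset.mem_range.2 (by omega)) b ((D K).J b k) F hF)
      simp only [fsR, if_true, hXv] at h1
      exact h1
  · left
    intro F hF
    exact absurd (le_of_blocks hF) hk

end Pool.Agent.H469S
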