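import Mathlib
import Pool.Agent.W25.UB.Stm4
import Pool.Agent.W59.GB.Cls
import Pool.Agent.H469S.Core

/-! Four classes of integers, from the theorem on four classes of shifts of the starting files. -/

set_option autoImplicit false

namespace Pool.Agent.H469S

open Filter Finset Pool.Agent.W59.GB Pool.Agent.W25.UB Pool.Agent.H947R3.GM

/-- `z` or `-z` is often the gap between consecutive primes, the smaller one being `a` modulo `N` -/
def GapZ (N a : ℕ) (z : ℤ) : Prop := ∃ k ∈ GapB N a, |z| = N * k

theorem d4 (h : St_C1a) (N a : ℕ) (hN : 0 < N) (h6 : 6 ∣ N) (hsq : Squarefree N) (ha : a.Coprime N) :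
    D4 N (GapZ N a) := by
  classical
  obtain ⟨r, hr, hH⟩ := h N a hN ((by norm_num : 2 ∣ 6).trans h6) hsq ha
  refine ⟨r, hr, (4 * r).factorial * N, Nat.mul_pos (Nat.factorial_pos _) hN, ?_⟩
  intro P hinj hNP hΛ
  choose p hp using hNP
  have hN0 : (N : ℤ) ≠ 0 := by exact_mod_cast hN.ne'
  set B : ℤ := ∑ x : Fin 4 × Fin r, |p x.1 x.2| with hB
  have hBle : ∀ g i, |p g i| ≤ B := by
    intro g i
    exact Finset.single_le_sum (f := fun x : Fin 4 × Fin r => |p x.1 x.2|) (fun _ _ => abs_nonneg _)
      (Finset.mem_univ (g, i))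
  have hpos : ∀ g i, 0 ≤ p g i + B := by
    intro g i
    have h1 := hBle g i
    have h2 := neg_abs_le (p g i)
    linarith
  set H : Fin 4 → Fin r → ℕ := fun g i => (p g i + B).toNat with hHdef
  have hHc : ∀ g i, (H g i : ℤ) = p g i + B := fun g i => Int.toNat_of_nonneg (hpos g i)
  have hfac : ∀ g i i', (((4 * r).factorial : ℕ) : ℤ) ∣ p g i - p g i' := by
    intro g i i'
    have h1 := hΛ g i i'
    rw [hp, hp] at h1
    have h2 : (((4 * r).factorial * N : ℕ) : ℤ) = ((4 * r).factorial : ℕ) * (N : ℤ) := by push_cast; ring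
    have h3 : (N : ℤ) * p g i - N * p g i' = (p g i - p g i') * N := by ring
    rw [h2, h3] at h1
    exact Int.dvd_of_mul_dvd_mul_right hN0 h1
  have hadm : AdmN N H := by
    constructor
    · intro x y hxy
      have h1 : (H x.1 x.2 : ℤ) = H y.1 y.2 := by exact_mod_cast hxy
      rw [hHc, hHc] at h1
      apply hinj
      show P x.1 x.2 = P y.1 y.2
      rw [hp, hp]
      have h2 : p x.1 x.2 = p y.1 y.2 := by linarith
      rw [h2]
    · intro q hq hqN
      have hq5 : 5 ≤ q := by
        by_contra hlt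
        push Not at hlt
        have h2 : 2 ≤ q := hq.two_le
        interval_cases q
        · exact hqN ((by norm_num : 2 ∣ 6).trans h6)
        · exact hqN ((by norm_num : 3 ∣ 6).trans h6)
        · exact absurd hq (by norm_num)
      have hq0 : (q : ℤ) ≠ 0 := by exact_mod_cast hq.ne_zero
      set T : Finset ℕ := univ.image (fun x : Fin 4 × Fin r => ((-(H x.1 x.2 : ℤ)) % q).toNat) with hT
      have hcard : T.card < q := by
        by_cases hqr : q ≤ 4 * r
        · have hsub : T ⊆ univ.image (fun g : Fin 4 => ((-(H g ⟨0, hr⟩ : ℤ)) % q).toNat) := by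
            intro t ht
            rw [hT, mem_image] at ht
            obtain ⟨x, -, rfl⟩ := ht
            rw [mem_image]
            refine ⟨x.1, mem_univ _, ?_⟩
            congr 1
            have h1 : (q : ℤ) ∣ p x.1 x.2 - p x.1 ⟨0, hr⟩ :=
              dvd_trans (by exact_mod_cast Nat.dvd_factorial hq.pos hqr) (hfac x.1 x.2 ⟨0, hr⟩)
            have h2 : -(H x.1 ⟨0, hr⟩ : ℤ) ≡ -(H x.1 x.2 : ℤ) [ZMOD q] := by
              rw [Int.modEq_iff_dvd, hHc, hHc]
              have e : -(p x.1 x.2 + B) - -(p x.1 ⟨0, hr⟩ + B) = -(p x.1 x.2 - p x.1 ⟨0, hr⟩) := by ring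
              rw [e]
              exact (dvd_neg).2 h1
            exact h2
          calc T.card ≤ _ := Finset.card_le_card hsub
            _ ≤ (univ : Finset (Fin 4)).card := Finset.card_image_le
            _ = 4 := by simp
            _ < q := by omega
        · calc T.card ≤ (univ : Finset (Fin 4 × Fin r)).card := Finset.card_image_le
            _ = 4 * r := by simp
            _ < q := by omega
      rw [← Finset.card_range q] at hcard
      obtain ⟨c, hc, hcn⟩ := Finset.exists_mem_notMem_of_card_lt_card hcard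
      rw [Finset.mem_range] at hc
      refine ⟨c, fun g i hd => hcn ?_⟩
      rw [hT, mem_image]
      refine ⟨(g, i), mem_univ _, ?_⟩
      have h3 : (-(H g i : ℤ)) % q = (c : ℤ) % q := by
        apply Int.ModEq.symm
        rw [Int.modEq_comm, Int.modEq_iff_dvd]
        have e : (c : ℤ) - -(H g i : ℤ) = c + H g i := by ring
        rw [e]
        exact hd
      show ((-(H g i : ℤ)) % q).toNat = c
      rw [h3, Int.emod_eq_of_lt (by positivity) (by exact_mod_cast hc)]
      simp
  obtain ⟨g, g', i, i', hne, hlt, hmem⟩ := hH H hadm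
  have hcast : ((H g' i' - H g i : ℕ) : ℤ) = p g' i' - p g i := by
    rw [Nat.cast_sub hlt.le, hHc, hHc]
    ring
  have hpos' : (0 : ℤ) ≤ p g' i' - p g i := by
    rw [← hcast]
    positivity
  have hval : P g' i' - P g i = N * (H g' i' - H g i : ℕ) := by
    rw [hcast, hp, hp]
    ring
  have hnn : (0 : ℤ) ≤ N * ((H g' i' - H g i : ℕ) : ℤ) := by positivity
  rcases lt_or_gt_of_ne hne with hlt' | hlt'
  · exact ⟨g, g', i, i', hlt', _, hmem, by rw [hval, abs_of_nonneg hnn]⟩
  · refine ⟨g', g, i', i, hlt', _, hmem, ?_⟩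
    rw [abs_sub_comm, hval, abs_of_nonneg hnn]

end Pool.Agent.H469S
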