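import Mathlib
import Pool.Agent.H469S.MainR

/-!
# The uniform finite theorem with any number of classes, bounded data and predicates varying with the index
-/

set_option autoImplicit false

namespace Pool.Agent.H469S

open Filter Finset

attribute [local instance] Ultrafilter.mul Ultrafilter.add
attribute [local instance] Ultrafilter.semigroup Ultrafilter.addSemigroup

set_option linter.unusedSectionVars false

/-- the property of `C` classes of integers of absolute value at most `B` -/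
def DCl (C r Λ N : ℕ) (B : ℝ) (Dz : ℤ → Prop) : Prop :=
  ∀ P : Fin C → Fin r → ℤ,
    Function.Injective (fun x : Fin C × Fin r => P x.1 x.2) → (∀ g i, (N : ℤ) ∣ P g i) →
    (∀ g i i', (Λ : ℤ) ∣ P g i - P g i') → (∀ g i, |(P g i : ℝ)| ≤ B) →
    ∃ g g' i i', g < g' ∧ Dz (P g' i' - P g i)

section

variable {M : Type*} [AddCommMonoid M] {U : Ultrafilter M} {W : Ultrafilter ℕ}

theorem extractC (hU : U + U = U) {k C : ℕ} {J : Finset (Fin k)} {f : (Fin k → M) → ℕ → ℤ} (hf : AddIn J f)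
    {e : Fin C → (Fin k → M) → ℕ → ℤ} (he : ∀ i, IndepOf J (e i))
    (Pr : ℕ → (Fin C → ℤ) → ℤ → Prop)
    (h : EvU U k (fun v => ∀ᶠ K in (W : Filter ℕ), Pr K (fun i => e i v K) (f v K))) (r : ℕ) :
    ∀ᶠ K in (W : Filter ℕ), ∃ (F : ℕ → ℤ) (E : Fin C → ℤ), ∀ t t', t < t' → t' ≤ r →
      Pr K E (F t' - F t) := by
  obtain ⟨u, hu⟩ := tower hU r k J (fun _ _ v => ∀ᶠ K in (W : Filter ℕ), Pr K (fun i => e i v K) (f v K))
    (fun _ _ _ _ => h)
  have h1 : ∀ᶠ K in (W : Filter ℕ), ∀ p ∈ (range (r + 1) ×ˢ range (r + 1)), p.1 < p.2 →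
      Pr K (fun i => e i (wv J u p.1 p.2) K) (f (wv J u p.1 p.2) K) := by
    rw [Filter.eventually_all_finset]
    rintro ⟨g, g'⟩ hp
    rw [mem_product, mem_range, mem_range] at hp
    by_cases hlt : g < g'
    · have h2 := hu g g' hlt (by have := hp.2; simp only at this; omega)
      exact h2.mono fun s hs _ => hs
    · exact Filter.Eventually.of_forall fun s hs => absurd hs hlt
  refine h1.mono fun K hK => ⟨fun t => f (wv J u 0 t) K, fun i => e i (wv J u 0 0) K, fun t t' h1 h2 => ?_⟩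
  have h3 := hK (t, t') (by rw [mem_product, mem_range, mem_range]; constructor <;> simp only <;> omega) h1
  have h4 := congrFun (f_wv hf u h1.le) K
  rw [Pi.add_apply] at h4
  have h5 : f (wv J u 0 t') K - f (wv J u 0 t) K = f (wv J u t t') K := by rw [h4]; ring
  have h6 : (fun i => e i (wv J u 0 0) K) = fun i => e i (wv J u t t') K := by
    funext i
    rw [he i (wv J u 0 0) (wv J u t t') (fun j hj => by simp only [wv, hj, if_false])]
  show Pr K (fun i => e i (wv J u 0 0) K) (f (wv J u 0 t') K - f (wv J u 0 t) K)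
  rw [h5, h6]
  exact h3

theorem ev_neC (hU : U + U = U) {k C : ℕ} {J : Finset (Fin k)} {f : (Fin k → M) → ℕ → ℤ} (hf : AddIn J f)
    {e : Fin C → (Fin k → M) → ℕ → ℤ} (he : ∀ i, IndepOf J (e i))
    (hne : EvU U k (fun v => ∀ᶠ K in (W : Filter ℕ), f v K ≠ 0)) (N : ℤ) (i j : Fin C) :
    EvU U k (fun v => ∀ᶠ K in (W : Filter ℕ), f v K + N * (e j v K - e i v K) ≠ 0) := by
  by_contra hcon
  obtain ⟨K, F, E, hF⟩ := (extractC (W := W) hU hf he (fun _ E z => z ≠ 0 ∧ ¬ z + N * (E j - E i) ≠ 0)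
    (evw_and hne (evw_not hcon)) 2).exists
  have h1 := hF 0 1 (by norm_num) (by norm_num)
  have h2 := hF 1 2 (by norm_num) (by norm_num)
  have h3 := hF 0 2 (by norm_num) (by norm_num)
  have a1 := not_not.1 h1.2
  have a2 := not_not.1 h2.2
  have a3 := not_not.1 h3.2
  have b1 := h1.1
  apply b1
  linarith

theorem coreC (hU : U + U = U) {C r Λ N : ℕ} (hr : 1 ≤ r) (hC : 1 ≤ C) (hΛ : 0 < Λ) (hN : 0 < N)
    {B : ℕ → ℝ} {Dz : ℕ → ℤ → Prop}
    (hP : ∀ᶠ K in (W : Filter ℕ), DCl C r Λ N (B K + B K) (Dz K)) {k : ℕ}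
    {J : Finset (Fin k)} {f : (Fin k → M) → ℕ → ℤ} (hf : AddIn J f)
    {e : Fin C → (Fin k → M) → ℕ → ℤ} (he : ∀ i, IndepOf J (e i))
    (hB : EvU U k (fun v => ∀ᶠ K in (W : Filter ℕ), |(f v K : ℝ)| ≤ B K ∧
      ∀ i, |((N * e i v K : ℤ) : ℝ)| ≤ B K))
    (hne : EvU U k (fun v => ∀ᶠ K in (W : Filter ℕ), f v K ≠ 0)) :
    ∃ i j, i < j ∧ EvU U k (fun v => ∀ᶠ K in (W : Filter ℕ), Dz K (f v K + N * (e j v K - e i v K))) := by
  by_contra hcon
  push Not at hcon
  have h1 : ∀ p : Fin C × Fin C, EvU U k (fun v => ∀ᶠ K in (W : Filter ℕ),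
      p.1 < p.2 → ¬ Dz K (f v K + N * (e p.2 v K - e p.1 v K))) := by
    intro p
    by_cases hp : p.1 < p.2
    · have h2 := evw_not (hcon p.1 p.2 hp)
      exact h2.mono fun v hv => hv.mono fun K hK _ => hK
    · exact EvU.of_forall fun v => Filter.Eventually.of_forall fun K h => absurd h hp
  have h2 : ∀ p : Fin C × Fin C, EvU U k (fun v => ∀ᶠ K in (W : Filter ℕ),
      f v K + N * (e p.2 v K - e p.1 v K) ≠ 0) := fun p => ev_neC hU hf he hne _ _ _
  have h3 := ev_dvd (W := W) hU hf (Λ * N) (Nat.mul_pos hΛ hN)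
  have h4 := evw_and (evw_and (evw_all h1) (evw_all h2)) (evw_and (evw_and h3 hne) hB)
  have hx := extractC (W := W) hU hf he (fun K c z => ((∀ p : Fin C × Fin C, p.1 < p.2 →
    ¬ Dz K (z + N * (c p.2 - c p.1))) ∧ ∀ p : Fin C × Fin C, z + N * (c p.2 - c p.1) ≠ 0) ∧
    (((((Λ * N : ℕ) : ℤ) ∣ z ∧ z ≠ 0)) ∧ |(z : ℝ)| ≤ B K ∧ ∀ i, |((N * c i : ℤ) : ℝ)| ≤ B K)) h4 (C * r)
  obtain ⟨K, ⟨F, c, hF⟩, hPK⟩ := (hx.and hP).exists
  have hCr : 1 ≤ C * r := Nat.mul_pos hC hr
  have hidx : ∀ (g : Fin C) (i : Fin r), (g : ℕ) * r + i ≤ C * r := by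
    intro g i
    have h5 : (g : ℕ) + 1 ≤ C := g.2
    have h6 := Nat.mul_le_mul_right r h5
    have h7 := i.2
    have h8 : ((g : ℕ) + 1) * r = (g : ℕ) * r + r := by ring
    omega
  have hlt : ∀ (g g' : Fin C) (i i' : Fin r), g < g' → (g : ℕ) * r + i < (g' : ℕ) * r + i' := by
    intro g g' i i' hgg
    have h5 : (g : ℕ) + 1 ≤ g' := hgg
    have h6 := Nat.mul_le_mul_right r h5
    have h7 := i.2
    have h8 : ((g : ℕ) + 1) * r = (g : ℕ) * r + r := by ring
    omega
  have hdv : ∀ t, t ≤ C * r → ((Λ * N : ℕ) : ℤ) ∣ F t - F 0 := by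
    intro t ht
    rcases Nat.eq_zero_or_pos t with rfl | h0
    · simp
    · exact (hF 0 t h0 ht).2.1.1
  have hBc : ∀ i, |((N * c i : ℤ) : ℝ)| ≤ B K := (hF 0 1 (by norm_num) hCr).2.2.2
  have hB0 : 0 ≤ B K := (abs_nonneg _).trans (hF 0 1 (by norm_num) hCr).2.2.1
  have hBF : ∀ t, t ≤ C * r → |((F t - F 0 : ℤ) : ℝ)| ≤ B K := by
    intro t ht
    rcases Nat.eq_zero_or_pos t with rfl | h0
    · simpa using hB0
    · exact (hF 0 t h0 ht).2.2.1
  have hdN : (N : ℤ) ∣ ((Λ * N : ℕ) : ℤ) := by exact_mod_cast Dvd.intro_left Λ rfl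
  have hdΛ : (Λ : ℤ) ∣ ((Λ * N : ℕ) : ℤ) := by exact_mod_cast Dvd.intro N rfl
  obtain ⟨g, g', i, i', hgg, hDz⟩ := hPK (fun g i => N * c g + (F ((g : ℕ) * r + i) - F 0)) (by
      rintro ⟨g, i⟩ ⟨g', i'⟩ hxy
      simp only at hxy
      rcases lt_trichotomy g g' with hg | hg | hg
      · exfalso
        have h5 := (hF _ _ (hlt g g' i i' hg) (hidx g' i')).1.2 (g, g')
        simp only at h5
        apply h5
        linarith
      · subst hg
        rcases lt_trichotomy i i' with hi | hi | hi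
        · exfalso
          have h5 := (hF ((g : ℕ) * r + i) ((g : ℕ) * r + i')
            (by have : (i : ℕ) < i' := hi; omega) (hidx g i')).2.1.2
          apply h5
          linarith
        · rw [hi]
        · exfalso
          have h5 := (hF ((g : ℕ) * r + i') ((g : ℕ) * r + i)
            (by have : (i' : ℕ) < i := hi; omega) (hidx g i)).2.1.2
          apply h5
          linarith
      · exfalso
        have h5 := (hF _ _ (hlt g' g i' i hg) (hidx g i)).1.2 (g', g)
        simp only at h5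
        apply h5
        linarith)
    (fun g i => by
      apply dvd_add (Dvd.intro _ rfl)
      exact hdN.trans (hdv _ (hidx g i)))
    (fun g i i' => by
      have h5 := hdΛ.trans (hdv _ (hidx g i))
      have h6 := hdΛ.trans (hdv _ (hidx g i'))
      have e : N * c g + (F ((g : ℕ) * r + i) - F 0) - (N * c g + (F ((g : ℕ) * r + i') - F 0)) =
        (F ((g : ℕ) * r + i) - F 0) - (F ((g : ℕ) * r + i') - F 0) := by ring
      rw [e]
      exact dvd_sub h5 h6)
    (fun g i => by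
      have h5 := hBc g
      have h6 := hBF _ (hidx g i)
      have e : (((N * c g + (F ((g : ℕ) * r + i) - F 0) : ℤ)) : ℝ) =
        ((N * c g : ℤ) : ℝ) + ((F ((g : ℕ) * r + i) - F 0 : ℤ) : ℝ) := by push_cast; ring
      rw [e]
      exact (abs_add_le _ _).trans (add_le_add h5 h6))
  have h5 := (hF _ _ (hlt g g' i i' hgg) (hidx g' i')).1.1 (g, g') hgg
  apply h5
  have e : F ((g' : ℕ) * r + i') - F ((g : ℕ) * r + i) + N * (c g' - c g) =
    N * c g' + (F ((g' : ℕ) * r + i') - F 0) - (N * c g + (F ((g : ℕ) * r + i) - F 0)) := by ring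
  simp only
  rw [e]
  exact hDz

end

/-- the data of the theorem -/
structure DataX (m C : ℕ) where
  A : Type
  inst : AddCommMonoid A
  f : Fin m → (k : ℕ) → (Fin k → A) → ℤ
  e : Fin m → (k : ℕ) → Fin C → (Fin k → A) → ℤ
  J : Fin m → (k : ℕ) → Finset (Fin k)
  hf : ∀ b k, AddIn (J b k) (f b k)
  he : ∀ b k i, IndepOf (J b k) (e b k i)
  x : ℕ → A

attribute [instance] DataX.inst

/-- the values are bounded by `B` -/
def BdX (N : ℕ) {m C : ℕ} (D : DataX m C) (B : ℝ) (K : ℕ) : Prop :=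
  ∀ b k (F : Fin k → Finset ℕ), Blocks F → (∀ l, ∀ t ∈ F l, t < K) →
    |(D.f b k (fun l => ∑ t ∈ F l, D.x t) : ℝ)| ≤ B ∧
      ∀ i, |((N * D.e b k i (fun l => ∑ t ∈ F l, D.x t) : ℤ) : ℝ)| ≤ B

/-- the conclusion for given data and bound -/
def HoldsX (N : ℕ) (Dz : ℤ → Prop) {m C : ℕ} (D : DataX m C) (K : ℕ) : Prop :=
  ∃ H : Fin m → Finset ℕ, Blocks H ∧ (∀ i, ∀ t ∈ H i, t < K) ∧
    ∀ b k, (∀ F : Fin k → Finset (Fin m), Blocks F → D.f b k (vec H D.x F) = 0) ∨
      ∃ i j, i < j ∧ ∀ F : Fin k → Finset (Fin m), Blocks F →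
        Dz (D.f b k (vec H D.x F) + N * (D.e b k j (vec H D.x F) - D.e b k i (vec H D.x F)))

/-- the sum over a multiset -/
def XX {m C : ℕ} (D : DataX m C) : Multiset ℕ →+ D.A where
  toFun s := (s.map D.x).sum
  map_zero' := by simp
  map_add' s t := by rw [Multiset.map_add, Multiset.sum_add]

theorem XX_toFinset {m C : ℕ} (D : DataX m C) {s : Multiset ℕ} (hs : s.Nodup) :
    XX D s = ∑ t ∈ s.toFinset, D.x t := by
  show (s.map D.x).sum = (s.toFinset.val.map D.x).sum
  rw [Multiset.toFinset_val, hs.dedup]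

section

variable {m C : ℕ} (D : ℕ → DataX m C)

open Classical in
/-- the functions at the limit -/
noncomputable def fsX (b : Fin m) (k : ℕ) (J0 : Finset (Fin k)) (v : Fin k → Multiset ℕ) (K : ℕ) : ℤ :=
  if (D K).J b k = J0 then (D K).f b k (fun i => XX (D K) (v i)) else 0

open Classical in
noncomputable def esX (b : Fin m) (k : ℕ) (J0 : Finset (Fin k)) (i : Fin C) (v : Fin k → Multiset ℕ)
    (K : ℕ) : ℤ :=
  if (D K).J b k = J0 then (D K).e b k i (fun i => XX (D K) (v i)) else 0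

theorem fsX_add (b : Fin m) (k : ℕ) (J0 : Finset (Fin k)) : AddIn J0 (fsX D b k J0) := by
  intro u v huv
  funext K
  rw [Pi.add_apply]
  by_cases h : (D K).J b k = J0
  · simp only [fsX, h, if_true]
    have h1 := (D K).hf b k (fun i => XX (D K) (u i)) (fun i => XX (D K) (v i)) (by
      intro j hj
      rw [h] at hj
      show XX (D K) (u j) = XX (D K) (v j)
      rw [huv j hj])
    rw [← h1]
    congr 1
    funext j
    rw [h]
    by_cases hj : j ∈ J0
    · simp only [hj, if_true, map_add]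
    · simp only [hj, if_false]
  · simp only [fsX, h, if_false, add_zero]

theorem esX_indep (b : Fin m) (k : ℕ) (J0 : Finset (Fin k)) (i : Fin C) : IndepOf J0 (esX D b k J0 i) := by
  intro u v huv
  funext K
  by_cases h : (D K).J b k = J0
  · simp only [esX, h, if_true]
    apply (D K).he b k i
    intro j hj
    rw [h] at hj
    show XX (D K) (u j) = XX (D K) (v j)
    rw [huv j hj]
  · simp only [esX, h, if_false]

theorem fsX_bd {N : ℕ} {B : ℕ → ℝ} (hBd : ∀ K, BdX N (D K) (B K) K) (hB0 : ∀ K, 0 ≤ B K)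
    {U : Ultrafilter (Multiset ℕ)}
    (hU : ∀ n, ∀ᶠ s in (U : Filter (Multiset ℕ)), Good n s) (b : Fin m) (k : ℕ) (J0 : Finset (Fin k)) :
    EvU U k (fun v => ∀ᶠ K in ((hyperfilter ℕ : Ultrafilter ℕ) : Filter ℕ),
      |(fsX D b k J0 v K : ℝ)| ≤ B K ∧ ∀ i, |((N * esX D b k J0 i v K : ℤ) : ℝ)| ≤ B K) := by
  refine (evU_incr hU k 0).mono fun v hv => ?_
  refine (lt_hyper (∑ i, (v i).sum)).mono fun K hK => ?_
  by_cases h : (D K).J b k = J0
  · simp only [fsX, esX, h, if_true]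
    have h1 := hBd K b k (fun l => (v l).toFinset)
      ⟨fun i => by
        obtain ⟨t, ht⟩ := Multiset.exists_mem_of_ne_zero (hv.1 i).2.1
        exact ⟨t, Multiset.mem_toFinset.2 ht⟩,
       fun i j hij s hs t ht => hv.2 i j hij s (Multiset.mem_toFinset.1 hs) t (Multiset.mem_toFinset.1 ht)⟩
      (by
        intro l t ht
        have h2 : t ≤ (v l).sum :=
          Multiset.single_le_sum (fun x _ => Nat.zero_le x) t (Multiset.mem_toFinset.1 ht)
        have h3 : (v l).sum ≤ ∑ i, (v i).sum :=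
          Finset.single_le_sum (f := fun i : Fin k => (v i).sum) (fun _ _ => Nat.zero_le _) (Finset.mem_univ l)
        omega)
    have e : (fun i => XX (D K) (v i)) = fun l => ∑ t ∈ (v l).toFinset, (D K).x t := by
      funext l
      exact XX_toFinset (D K) (hv.1 l).1
    rw [e]
    exact h1
  · simp only [fsX, esX, h, if_false]
    exact ⟨by simpa using hB0 K, fun i => by simpa using hB0 K⟩

end

theorem main_dataX {C r Λ N : ℕ} (hr : 1 ≤ r) (hC : 1 ≤ C) (hΛ : 0 < Λ) (hN : 0 < N)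
    {B : ℕ → ℝ} (hB0 : ∀ K, 0 ≤ B K) {Dz : ℕ → ℤ → Prop}
    (hP : ∀ᶠ K in ((hyperfilter ℕ : Ultrafilter ℕ) : Filter ℕ), DCl C r Λ N (B K + B K) (Dz K))
    (m : ℕ) (D : ℕ → DataX m C) (hBd : ∀ K, BdX N (D K) (B K) K) :
    ∃ K, HoldsX N (Dz K) (D K) K := by
  classical
  obtain ⟨U, hU, hgood⟩ := exists_idem
  set W : Ultrafilter ℕ := hyperfilter ℕ with hW
  -- the dichotomy
  have hQ : ∀ (b : Fin m) (k : ℕ) (J0 : Finset (Fin k)), ∃ Q : (Fin k → Multiset ℕ) → ℕ → Prop,
      EvU U k (fun v => ∀ᶠ K in (W : Filter ℕ), Q v K) ∧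
      ((∀ v K, Q v K → fsX D b k J0 v K = 0) ∨ ∃ i j, i < j ∧ ∀ v K, Q v K →
        Dz K (fsX D b k J0 v K + N * (esX D b k J0 j v K - esX D b k J0 i v K))) := by
    intro b k J0
    by_cases h : EvU U k (fun v => ∀ᶠ K in (W : Filter ℕ), fsX D b k J0 v K ≠ 0)
    · obtain ⟨i, j, hij, h1⟩ := coreC (W := W) hU hr hC hΛ hN hP (fsX_add D b k J0) (esX_indep D b k J0)
        (fsX_bd D hBd hB0 hgood b k J0) h
      exact ⟨_, h1, Or.inr ⟨i, j, hij, fun v K h => h⟩⟩
    · exact ⟨_, evw_not h, Or.inl fun v K h => not_not.1 h⟩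
  choose Q hQ1 hQ2 using hQ
  -- the obligations
  set E0 : List (Ob (Multiset ℕ)) := (List.range (m + 1)).flatMap fun k =>
    ((Finset.univ : Finset (Fin m × Finset (Fin k))).toList.map fun p =>
      (⟨k, fun v => ∀ᶠ K in (W : Filter ℕ), Q p.1 k p.2 v K⟩ : Ob (Multiset ℕ))) with hE0
  have hE : ∀ a : ℕ, ∀ o ∈ (fun _ : ℕ => E0) a, Ok U o := by
    intro a o ho
    simp only [hE0, List.mem_flatMap, List.mem_map] at ho
    obtain ⟨k, -, p, -, rfl⟩ := ho
    exact hQ1 p.1 k p.2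
  obtain ⟨y, hy1, hy2⟩ := diag hU (fun s y => Good (s.sum + 1) y) (fun s => hgood _) (fun _ => E0) hE
  have hmem : ∀ (b : Fin m) (k : ℕ) (J0 : Finset (Fin k)), k ≤ m →
      (⟨k, fun v => ∀ᶠ K in (W : Filter ℕ), Q b k J0 v K⟩ : Ob (Multiset ℕ)) ∈ E0 := by
    intro b k J0 hk
    simp only [hE0, List.mem_flatMap, List.mem_map]
    exact ⟨k, List.mem_range.2 (by omega), (b, J0), Finset.mem_toList.2 (Finset.mem_univ _), rfl⟩
  -- the blocks
  let H : Fin m → Finset ℕ := fun n => (y n).toFinset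
  have hHlt : Blocks H := by
    constructor
    · intro i
      have h1 := (hy1 i).2.1
      obtain ⟨t, ht⟩ := Multiset.exists_mem_of_ne_zero h1
      exact ⟨t, Multiset.mem_toFinset.2 ht⟩
    · intro i j hij s hs t ht
      have hs' : s ∈ y i := Multiset.mem_toFinset.1 hs
      have ht' : t ∈ y j := Multiset.mem_toFinset.1 ht
      have h1 := (hy1 j).2.2 t ht'
      have h2 : s ≤ (∑ l ∈ range (j : ℕ), y l).sum := by
        have h3 : s ∈ ∑ l ∈ range (j : ℕ), y l := by
          rw [Multiset.mem_sum]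
          exact ⟨i, Finset.mem_range.2 hij, hs'⟩
        exact Multiset.single_le_sum (fun x _ => Nat.zero_le x) s h3
      omega
  let vc : (k : ℕ) → (Fin k → Finset (Fin m)) → (Fin k → Multiset ℕ) := fun k F l => ∑ j ∈ F l, y j
  have hXv : ∀ (K k : ℕ) (F : Fin k → Finset (Fin m)),
      (fun i => XX (D K) (vc k F i)) = vec H (D K).x F := by
    intro K k F
    funext l
    show XX (D K) (∑ j ∈ F l, y j) = ∑ j ∈ F l, ∑ t ∈ H j, (D K).x t
    rw [map_sum]
    exact Finset.sum_congr rfl fun j _ => XX_toFinset (D K) (hy1 j).1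
  have hev : ∀ᶠ K in (W : Filter ℕ), ∀ k ∈ Finset.range (m + 1), ∀ (b : Fin m) (J0 : Finset (Fin k))
      (F : Fin k → Finset (Fin m)), Blocks F → Q b k J0 (vc k F) K := by
    rw [Filter.eventually_all_finset]
    intro k hk
    rw [Finset.mem_range] at hk
    rw [Filter.eventually_all]
    intro b
    rw [Filter.eventually_all]
    intro J0
    rw [Filter.eventually_all]
    intro F
    by_cases hF : Blocks F
    · have h1 := hy2 0 _ (hmem b k J0 (by omega)) (fun i => (F i).map Fin.valEmbedding)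
        (fun i => (hF.1 i).map)
        (by
          intro i j hij s hs t ht
          rw [Finset.mem_map] at hs ht
          obtain ⟨s', hs', rfl⟩ := hs
          obtain ⟨t', ht', rfl⟩ := ht
          exact hF.2 i j hij s' hs' t' ht')
        (fun i s _ => Nat.zero_le s)
      have e : (fun i => ∑ j ∈ (F i).map Fin.valEmbedding, y j) = vc k F := by
        funext i
        rw [Finset.sum_map]
        rfl
      simp only at h1
      rw [e] at h1
      exact h1.mono fun K hK _ => hK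
    · exact Filter.Eventually.of_forall fun K h => absurd h hF
  have hge : ∀ᶠ K in (W : Filter ℕ), ∀ i, ∀ t ∈ H i, t < K := by
    refine (lt_hyper (∑ i, (y (i : Fin m)).sum)).mono fun K hK i t ht => ?_
    have h2 : t ≤ (y i).sum := Multiset.single_le_sum (fun x _ => Nat.zero_le x) t (Multiset.mem_toFinset.1 ht)
    have h3 : (y i).sum ≤ ∑ i, (y (i : Fin m)).sum :=
      Finset.single_le_sum (f := fun i : Fin m => (y i).sum) (fun _ _ => Nat.zero_le _) (Finset.mem_univ i)
    omega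
  obtain ⟨K, hK1, hK2⟩ := (hev.and hge).exists
  refine ⟨K, H, hHlt, hK2, fun b k => ?_⟩
  by_cases hk : k ≤ m
  · rcases hQ2 b k ((D K).J b k) with h | ⟨i, j, hij, h⟩
    · left
      intro F hF
      have h1 := h _ _ (hK1 k (Finset.mem_range.2 (by omega)) b ((D K).J b k) F hF)
      simp only [fsX, if_true, hXv] at h1
      exact h1
    · right
      refine ⟨i, j, hij, fun F hF => ?_⟩
      have h1 := h _ _ (hK1 k (Finset.mem_range.2 (by omega)) b ((D K).J b k) F hF)
      simp only [fsX, esX, if_true, hXv] at h1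
      exact h1
  · left
    intro F hF
    exact absurd (le_of_blocks hF) hk

end Pool.Agent.H469S
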