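import Mathlib
import Pool.Agent.Y877.RecB
import Pool.Agent.H469S.MainX

/-! Classes of integers up to the record scale: gaps between consecutive primes of `(X, 4 X]`. -/

set_option autoImplicit false

namespace Pool.Agent.H469S

open Filter Finset
open Pool.Agent.Y877
open Pool.Agent.H256R2.SC (ff)
open Pool.Agent.H362R2.RQ (fib)

theorem reflTrans_false {α : Type} {S : Finset α} {i j : α}
    (h : Relation.ReflTransGen (fun x y => x ∈ S ∧ y ∈ S ∧ False) i j) : i = j := by
  induction h with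
  | refl => rfl
  | tail _ hab _ => exact absurd hab.2.2 id

theorem recDCl : ∃ C : ℕ, 2 ≤ C ∧ ∀ d : ℕ, Squarefree d → (∀ p : ℕ, p.Prime → p ≤ C → p ∣ d) →
    ∃ (r Λ : ℕ) (c : ℝ), 1 ≤ r ∧ 0 < Λ ∧ 0 < c ∧ ∀ᶠ X : ℝ in atTop, 0 ≤ ff X ∧ ∀ a : ℕ, a.Coprime d →
      DCl C r Λ d (c * ff X + c * ff X) (fun z => z ≠ 0 ∧ X ^ (6 / 7 : ℝ) ≤ gapCount X d a z.natAbs) := by
  classical
  obtain ⟨η, hη, HM⟩ := Pool.Agent.TH101.RG.tuple_multiples
  obtain ⟨T, hT2, hTη⟩ : ∃ T : ℕ, 2 ≤ T ∧ (2 : ℝ) ≤ η * T := by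
    obtain ⟨T, hT⟩ := exists_nat_ge (2 / η)
    refine ⟨T + 2, by omega, ?_⟩
    rw [div_le_iff₀ hη] at hT
    push_cast
    nlinarith
  have hT : 1 ≤ T := by omega
  obtain ⟨K, hTK, HM⟩ := HM T hT
  have hK : 1 ≤ K := hT.trans hTK
  refine ⟨T, hT2, fun d hd hpd => ?_⟩
  obtain ⟨c, hc, HM⟩ := HM 1 1 1 d hd
  refine ⟨K, (T * K).factorial, c / 4, hK, Nat.factorial_pos _, by positivity, ?_⟩
  have hpow : ∀ᶠ X : ℝ in atTop, (K : ℝ) ^ 2 * X ^ (6 / 7 : ℝ) ≤ X ^ (7 / 8 : ℝ) := by
    filter_upwards [(tendsto_rpow_atTop (by norm_num : (0 : ℝ) < 1 / 56)).eventually_ge_atTop ((K : ℝ) ^ 2),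
      eventually_gt_atTop (0 : ℝ)] with X h1 h2
    calc (K : ℝ) ^ 2 * X ^ (6 / 7 : ℝ) ≤ X ^ (1 / 56 : ℝ) * X ^ (6 / 7 : ℝ) :=
          mul_le_mul_of_nonneg_right h1 (Real.rpow_nonneg h2.le _)
      _ = X ^ (7 / 8 : ℝ) := by
          rw [← Real.rpow_add h2]
          norm_num
  filter_upwards [HM, Pool.Agent.H312R2.RG.ev_ff c hc, hpow, eventually_ge_atTop (1 : ℝ),
    Real.tendsto_log_atTop.eventually_ge_atTop (1 : ℝ)] with X hX hff hXp hX1 hXl
  refine ⟨hff.2.1, fun a ha => ?_⟩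
  intro P hinj hdP hΛP hBP
  by_contra hcon
  push Not at hcon
  -- the shift
  obtain ⟨x0, -, hx0⟩ := exists_max_image (univ : Finset (Fin T × Fin K)) (fun x => (P x.1 x.2).natAbs)
    ⟨(⟨0, hT⟩, ⟨0, hK⟩), mem_univ _⟩
  obtain ⟨M0, hM0⟩ : ∃ M0 : ℕ, M0 = (P x0.1 x0.2).natAbs := ⟨_, rfl⟩
  have hdM0 : d ∣ M0 := by
    rw [hM0]
    exact Int.natCast_dvd.1 (hdP _ _)
  have hPM : ∀ g i, |P g i| ≤ (M0 : ℤ) := by
    intro g i
    have h1 := hx0 (g, i) (mem_univ _)
    simp only at h1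
    rw [Int.abs_eq_natAbs, hM0]
    exact_mod_cast h1
  have hM0r : (M0 : ℝ) ≤ c / 2 * ff X := by
    have h1 := hBP x0.1 x0.2
    have h2 : ((M0 : ℕ) : ℝ) = |(P x0.1 x0.2 : ℝ)| := by
      rw [hM0, Nat.cast_natAbs, Int.cast_abs]
    rw [h2]
    calc |(P x0.1 x0.2 : ℝ)| ≤ c / 4 * ff X + c / 4 * ff X := h1
      _ = c / 2 * ff X := by ring
  have hnn : ∀ g i, 0 ≤ P g i + M0 := by
    intro g i
    have h1 := hPM g i
    have h2 := neg_abs_le (P g i)
    linarith
  obtain ⟨t, ht⟩ : ∃ t : Fin K → ℕ, ∀ j, (t j : ℤ) = P (clz T hT j) j + M0 :=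
    ⟨fun j => (P (clz T hT j) j + M0).toNat, fun j => Int.toNat_of_nonneg (hnn _ _)⟩
  have htinj : Function.Injective t := by
    intro j j' h
    have h1 : (t j : ℤ) = t j' := by rw [h]
    rw [ht, ht] at h1
    have h2 : P (clz T hT j) j = P (clz T hT j') j' := by linarith
    have h3 := hinj (a₁ := (clz T hT j, j)) (a₂ := (clz T hT j', j')) h2
    exact (Prod.ext_iff.1 h3).2
  have htff : ∀ j, (t j : ℝ) ≤ c * ff X := by
    intro j
    have h1 : (t j : ℤ) ≤ M0 + M0 := by
      rw [ht]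
      have := (le_abs_self _).trans (hPM (clz T hT j) j)
      linarith
    have h2 : (t j : ℝ) ≤ M0 + M0 := by exact_mod_cast h1
    linarith
  have htd : ∀ j, d ∣ t j := by
    intro j
    have h1 : (d : ℤ) ∣ (t j : ℤ) := by
      rw [ht]
      exact dvd_add (hdP _ _) (by exact_mod_cast hdM0)
    exact_mod_cast h1
  have hadm : ∀ p : ℕ, p.Prime → ∃ v : ℕ, ∀ j, ¬ p ∣ v + t j := by
    intro p hp
    by_cases hpT : p ≤ T
    · refine ⟨1, fun j h => ?_⟩
      have h1 : p ∣ t j := (hpd p hp hpT).trans (htd j)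
      have h2 : p ∣ 1 := (Nat.dvd_add_left h1).1 h
      exact hp.one_lt.ne' (Nat.dvd_one.1 h2)
    · have hp0 : (p : ℤ) ≠ 0 := by exact_mod_cast hp.ne_zero
      set S : Finset ℕ := univ.image (fun j : Fin K => ((-(t j : ℤ)) % p).toNat) with hS
      have hcard : S.card < p := by
        by_cases hpr : p ≤ T * K
        · have hsub : S ⊆ univ.image (fun g : Fin T => ((-(P g ⟨0, hK⟩ + M0)) % p).toNat) := by
            intro s hs
            rw [hS, mem_image] at hs
            obtain ⟨j, -, rfl⟩ := hs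
            rw [mem_image]
            refine ⟨clz T hT j, mem_univ _, ?_⟩
            congr 1
            have h1 : (p : ℤ) ∣ P (clz T hT j) j - P (clz T hT j) ⟨0, hK⟩ :=
              dvd_trans (by exact_mod_cast Nat.dvd_factorial hp.pos hpr) (hΛP _ _ _)
            have h2 : -(P (clz T hT j) ⟨0, hK⟩ + (M0 : ℤ)) ≡ -(t j : ℤ) [ZMOD p] := by
              rw [Int.modEq_iff_dvd, ht]
              have e : -(P (clz T hT j) j + (M0 : ℤ)) - -(P (clz T hT j) ⟨0, hK⟩ + (M0 : ℤ)) =
                -(P (clz T hT j) j - P (clz T hT j) ⟨0, hK⟩) := by ring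
              rw [e]
              exact (dvd_neg).2 h1
            exact h2
          calc S.card ≤ _ := Finset.card_le_card hsub
            _ ≤ (univ : Finset (Fin T)).card := Finset.card_image_le
            _ = T := by simp
            _ < p := by omega
        · calc S.card ≤ (univ : Finset (Fin K)).card := Finset.card_image_le
            _ = K := by simp
            _ ≤ T * K := Nat.le_mul_of_pos_left _ hT
            _ < p := by omega
      rw [← Finset.card_range p] at hcard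
      obtain ⟨v, hv, hvn⟩ := Finset.exists_mem_notMem_of_card_lt_card hcard
      rw [Finset.mem_range] at hv
      refine ⟨v, fun j hd' => hvn ?_⟩
      rw [hS, mem_image]
      refine ⟨j, mem_univ _, ?_⟩
      have h3 : (-(t j : ℤ)) % p = (v : ℤ) % p := by
        apply Int.ModEq.symm
        rw [Int.modEq_comm, Int.modEq_iff_dvd]
        have e : (v : ℤ) - -(t j : ℤ) = ((v + t j : ℕ) : ℤ) := by push_cast; ring
        rw [e]
        exact_mod_cast hd'
      show ((-(t j : ℤ)) % p).toNat = v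
      rw [h3, Int.emod_eq_of_lt (by positivity) (by exact_mod_cast hv)]
      simp
  obtain ⟨bad, hbadc, hbad⟩ := bad_set X (by linarith) d a t
  obtain ⟨n, hXn, hn3, hnb, hnd, ⟨E, hE1, hE2⟩, hiso⟩ := hX 1 0 one_ne_zero (by
      rw [pow_one]
      simpa using hXl)
    (by simp) (by
      rw [pow_one]
      simp only [Int.cast_zero, abs_zero]
      linarith) t htinj (fun j => (htff j).trans hff.1) hadm a (fun j => by
      obtain ⟨e, he⟩ := htd j
      rw [he]
      have h1 : Nat.Coprime (a + d * e) d := by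
        rw [Nat.coprime_add_mul_left_left]
        exact ha
      exact h1)
    (clz T hT) (fun e => clz_card T K hT hTK e) bad (hbadc.trans hXp)
  have hiso' : ∀ q : ℕ, q.Prime → n ≤ q → (q : ℝ) ≤ n + c * ff X → ∃ l, q = n + t l := by
    intro q hq hnq hqn
    refine hiso 1 1 (by simp) (by simp) (by simp) (by simp) q hq ?_
    have h1 : ((1 * (q : ℤ) - 1 * (1 * (n : ℤ) + 0) : ℤ) : ℝ) = (q : ℝ) - n := by push_cast; ring
    have h2 : (n : ℝ) ≤ q := by exact_mod_cast hnq
    rw [h1, abs_of_nonneg (by linarith)]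
    linarith
  -- the hits
  obtain ⟨Q, hQ⟩ : ∃ Q : Finset (Fin K), ∀ j, j ∈ Q ↔ (n + t j).Prime :=
    ⟨univ.filter (fun j => (n + t j).Prime), fun j => by
      rw [mem_filter]; exact ⟨fun h => h.2, fun h => ⟨mem_univ _, h⟩⟩⟩
  have hlink : Pool.Agent.Y877.Linked (Q.image (clz T hT)) (fun _ _ => False) := by
    refine linked_of_path t htinj Q (clz T hT) _ (fun x y hxy => hxy) (fun w hw z hz hwz hcons hne => ?_)
    have hg : n + t w ∈ gset X d a (t z - t w) := by
      rw [mem_gset]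
      have e1 : n + t w + (t z - t w) = n + t z := by omega
      have hw0 : (0 : ℝ) ≤ t w := Nat.cast_nonneg _
      have h1 : (t w : ℝ) ≤ X := by
        have h2 := htff w
        have h3 := hff.2.2
        have h4 : 0 ≤ c * ff X := mul_nonneg hc.le hff.2.1
        linarith
      refine ⟨by push_cast; linarith, by push_cast; linarith, ?_, (hQ w).1 hw, ?_, ?_⟩
      · have h5 : t w ≡ 0 [MOD d] := (Nat.modEq_zero_iff_dvd).2 (htd w)
        have h6 := hnd.add h5
        rw [add_zero] at h6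
        exact h6
      · rw [e1]
        exact (hQ z).1 hz
      · intro q hq1 hq2 hqp
        rw [e1] at hq2
        obtain ⟨l, hl⟩ := hiso' q hqp (by omega) (by
          have h2 : (q : ℝ) ≤ ((n + t z : ℕ) : ℝ) := by exact_mod_cast hq2.le
          push_cast at h2
          have h3 := htff z
          linarith)
        rw [hl] at hq1 hq2 hqp
        have h2 := hcons l ((hQ l).2 hqp) (by omega)
        omega
    have hgood := hbad n w z hnb hg
    have hval : ((t z - t w : ℕ) : ℤ) = P (clz T hT z) z - P (clz T hT w) w := by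
      rw [Nat.cast_sub hwz.le, ht, ht]
      ring
    have hval2 : t z - t w = (P (clz T hT z) z - P (clz T hT w) w).natAbs := by
      rw [← hval]
      simp
    rcases lt_or_gt_of_ne hne with hlt | hlt
    · have h1 := hcon (clz T hT w) (clz T hT z) w z hlt (fun h0 => by
        rw [h0] at hval
        have : t z - t w = 0 := by exact_mod_cast hval
        omega)
      rw [← hval2] at h1
      exact absurd hgood (not_le.2 h1)
    · have h1 := hcon (clz T hT z) (clz T hT w) z w hlt (fun h0 => by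
        have h0' : P (clz T hT z) z - P (clz T hT w) w = 0 := by linarith
        rw [h0'] at hval
        have : t z - t w = 0 := by exact_mod_cast hval
        omega)
      have hcomm : (P (clz T hT w) w - P (clz T hT z) z).natAbs = (P (clz T hT z) z - P (clz T hT w) w).natAbs := by
        rw [← Int.natAbs_neg, neg_sub]
      rw [hcomm, ← hval2] at h1
      exact absurd hgood (not_le.2 h1)
  have hE3 : 1 < E.card := by
    have h1 : (2 : ℝ) ≤ E.card := hTη.trans hE1
    have h2 : 2 ≤ E.card := by exact_mod_cast h1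
    omega
  obtain ⟨e₁, he₁, e₂, he₂, hne⟩ := one_lt_card.1 hE3
  obtain ⟨j₁, hj₁, hp₁⟩ := hE2 e₁ he₁
  obtain ⟨j₂, hj₂, hp₂⟩ := hE2 e₂ he₂
  have m₁ : e₁ ∈ Q.image (clz T hT) := mem_image.2 ⟨j₁, (hQ j₁).2 hp₁, hj₁⟩
  have m₂ : e₂ ∈ Q.image (clz T hT) := mem_image.2 ⟨j₂, (hQ j₂).2 hp₂, hj₂⟩
  exact hne (reflTrans_false (hlink e₁ m₁ e₂ m₂))

end Pool.Agent.H469S
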