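import Mathlib
import Pool.Agent.H469S.MainX

/-!
# Iterated limits over pairs of blocks: arbitrary functions
-/

set_option autoImplicit false

namespace Pool.Agent.H469S

open Filter Finset

attribute [local instance] Ultrafilter.mul Ultrafilter.add
attribute [local instance] Ultrafilter.semigroup Ultrafilter.addSemigroup

set_option linter.unusedSectionVars false

/-- the index `2 l` -/
def i0 {k : ℕ} (l : Fin k) : Fin (2 * k) := ⟨2 * l, by omega⟩

/-- the index `2 l + 1` -/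
def i1 {k : ℕ} (l : Fin k) : Fin (2 * k) := ⟨2 * l + 1, by omega⟩

section

variable {M : Type*} {U : Ultrafilter M}

/-- `P ((s_1, ..., s_k), (t_1, ..., t_k))` for `U`-most `s_1`, `t_1`, `s_2`, `t_2`, ... -/
def EvP (U : Ultrafilter M) (k : ℕ) (P : (Fin k → M) → (Fin k → M) → Prop) : Prop :=
  EvU U (2 * k) (fun w => P (fun l => w (i0 l)) (fun l => w (i1 l)))

theorem EvP_succ {k : ℕ} {P : (Fin (k + 1) → M) → (Fin (k + 1) → M) → Prop} :
    EvP U (k + 1) P ↔ ∀ᶠ s in (U : Filter M), ∀ᶠ t in (U : Filter M),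
      EvP U k (fun u v => P (Fin.cons (α := fun _ => M) s u) (Fin.cons (α := fun _ => M) t v)) := by
  have h0 : EvP U (k + 1) P ↔ ∀ᶠ s in (U : Filter M), ∀ᶠ t in (U : Filter M),
      EvU U (2 * k) (fun w => P
        (fun l => (Fin.cons (α := fun _ => M) s (Fin.cons (α := fun _ => M) t w : Fin (2 * k + 1) → M) :
          Fin (2 * k + 1 + 1) → M) (i0 l))
        (fun l => (Fin.cons (α := fun _ => M) s (Fin.cons (α := fun _ => M) t w : Fin (2 * k + 1) → M) :
          Fin (2 * k + 1 + 1) → M) (i1 l))) := Iff.rfl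
  rw [h0]
  have e0 : ∀ (s t : M) (w : Fin (2 * k) → M),
      (fun l : Fin (k + 1) => (Fin.cons (α := fun _ => M) s (Fin.cons (α := fun _ => M) t w :
        Fin (2 * k + 1) → M) : Fin (2 * k + 1 + 1) → M) (i0 l)) =
      Fin.cons (α := fun _ => M) s (fun l => w (i0 l)) := by
    intro s t w
    funext l
    refine Fin.cases ?_ (fun l => ?_) l
    · rfl
    · rfl
  have e1 : ∀ (s t : M) (w : Fin (2 * k) → M),
      (fun l : Fin (k + 1) => (Fin.cons (α := fun _ => M) s (Fin.cons (α := fun _ => M) t w :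
        Fin (2 * k + 1) → M) : Fin (2 * k + 1 + 1) → M) (i1 l)) =
      Fin.cons (α := fun _ => M) t (fun l => w (i1 l)) := by
    intro s t w
    funext l
    refine Fin.cases ?_ (fun l => ?_) l
    · rfl
    · rfl
  simp only [e0, e1]
  rfl

theorem EvP.mono {k : ℕ} {P Q : (Fin k → M) → (Fin k → M) → Prop} (h : ∀ u v, P u v → Q u v)
    (hP : EvP U k P) : EvP U k Q :=
  EvU.mono (fun _ => h _ _) hP

end

section

variable {M : Type*} [AddCommMonoid M] {U : Ultrafilter M} {W : Ultrafilter ℕ}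

theorem evp_not {k : ℕ} {Pr : (Fin k → M) → (Fin k → M) → ℕ → Prop}
    (h : ¬ EvP U k (fun s t => ∀ᶠ K in (W : Filter ℕ), Pr s t K)) :
    EvP U k (fun s t => ∀ᶠ K in (W : Filter ℕ), ¬ Pr s t K) :=
  evw_not (Pr := fun w K => Pr (fun l => w (i0 l)) (fun l => w (i1 l)) K) h

theorem evp_all {ι : Type*} [Fintype ι] {k : ℕ} {Pr : ι → (Fin k → M) → (Fin k → M) → ℕ → Prop}
    (h : ∀ i, EvP U k (fun s t => ∀ᶠ K in (W : Filter ℕ), Pr i s t K)) :
    EvP U k (fun s t => ∀ᶠ K in (W : Filter ℕ), ∀ i, Pr i s t K) :=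
  evw_all (Pr := fun i w K => Pr i (fun l => w (i0 l)) (fun l => w (i1 l)) K) h

theorem evp_and {k : ℕ} {Pr Pr' : (Fin k → M) → (Fin k → M) → ℕ → Prop}
    (h : EvP U k (fun s t => ∀ᶠ K in (W : Filter ℕ), Pr s t K))
    (h' : EvP U k (fun s t => ∀ᶠ K in (W : Filter ℕ), Pr' s t K)) :
    EvP U k (fun s t => ∀ᶠ K in (W : Filter ℕ), Pr s t K ∧ Pr' s t K) :=
  evw_and (Pr := fun w K => Pr (fun l => w (i0 l)) (fun l => w (i1 l)) K) h h'

/-- the first vector -/
def base {k : ℕ} (J : Finset (Fin k)) (s t : Fin k → M) : Fin k → M := fun l => if l ∈ J then s l else t l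

/-- the second vector -/
def full {k : ℕ} (J : Finset (Fin k)) (s t : Fin k → M) : Fin k → M := fun l => if l ∈ J then s l + t l else t l

/-- the position at the time `g` -/
def pos {k : ℕ} (J : Finset (Fin k)) (u : Fin k → ℕ → M) (g : ℕ) : Fin k → M :=
  fun l => if l ∈ J then ∑ i ∈ range (g + 1), u l i else u l 1

/-- the first vector of a configuration -/
def bs {k : ℕ} (J : Finset (Fin k)) (u : Fin k → ℕ → M) (g : ℕ) : Fin k → M :=
  fun l => if l ∈ J then ∑ i ∈ range (g + 1), u l i else u l 0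

/-- the second vector of a configuration -/
def st {k : ℕ} (J : Finset (Fin k)) (u : Fin k → ℕ → M) (g g' : ℕ) : Fin k → M :=
  fun l => if l ∈ J then ∑ i ∈ Ico (g + 1) (g' + 1), u l i else u l 1

theorem base_bs {k : ℕ} (J : Finset (Fin k)) (u : Fin k → ℕ → M) (g g' : ℕ) :
    base J (bs J u g) (st J u g g') = pos J u g := by
  funext l
  by_cases hl : l ∈ J
  · simp only [base, bs, pos, hl, if_true]
  · simp only [base, st, pos, hl, if_false]

theorem full_bs {k : ℕ} (J : Finset (Fin k)) (u : Fin k → ℕ → M) {g g' : ℕ} (h : g < g') :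
    full J (bs J u g) (st J u g g') = pos J u g' := by
  funext l
  by_cases hl : l ∈ J
  · simp only [full, bs, st, pos, hl, if_true]
    exact Finset.sum_range_add_sum_Ico _ (by omega)
  · simp only [full, st, pos, hl, if_false]

theorem tower2 (hU : U + U = U) (r : ℕ) : ∀ (k : ℕ) (J : Finset (Fin k))
    (P : ℕ → ℕ → (Fin k → M) → (Fin k → M) → Prop), (∀ g g', g < g' → g' ≤ r → EvP U k (P g g')) →
    ∃ u : Fin k → ℕ → M, ∀ g g', g < g' → g' ≤ r → P g g' (bs J u g) (st J u g g') := by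
  intro k
  induction k with
  | zero =>
    intro J P h
    refine ⟨fun j => Fin.elim0 j, fun g g' h1 h2 => ?_⟩
    have h3 : P g g' (fun l => (Fin.elim0 l : M)) (fun l => (Fin.elim0 l : M)) := by
      have h4 := h g g' h1 h2
      have h5 : P g g' (fun l : Fin 0 => (Fin.elim0 : Fin 0 → M) (i0 l)) (fun l : Fin 0 => (Fin.elim0 : Fin 0 → M) (i1 l)) := h4
      have e : ∀ x y : Fin 0 → M, x = y := fun x y => funext fun l => Fin.elim0 l
      rw [e (fun l => (Fin.elim0 l : M)) (fun l : Fin 0 => (Fin.elim0 : Fin 0 → M) (i0 l))]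
      exact h5
    have e : ∀ x y : Fin 0 → M, x = y := fun x y => funext fun l => Fin.elim0 l
    rw [e (bs J _ g) (fun l => (Fin.elim0 l : M)), e (st J _ g g') (fun l => (Fin.elim0 l : M))]
    exact h3
  | succ k ih =>
    intro J P h
    classical
    -- the obligations of two variables
    let Qo : ℕ → ℕ → Ob M := fun g g' => ⟨2, fun v => EvP U k (fun u w =>
      P g g' (Fin.cons (α := fun _ => M) (v 0) u) (Fin.cons (α := fun _ => M) (v 1) w))⟩
    have hQo : ∀ g g', g < g' → g' ≤ r → Ok U (Qo g g') := by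
      intro g g' h1 h2
      have h3 := EvP_succ.1 (h g g' h1 h2)
      show ∀ᶠ s in (U : Filter M), ∀ᶠ t in (U : Filter M), _
      exact h3
    let E0 : List (Ob M) := (List.range (r + 1)).flatMap fun g => ((List.range (r + 1)).filter
      (fun g' => g < g')).map fun g' => Qo g g'
    have hE0 : ∀ a : ℕ, ∀ o ∈ (fun _ : ℕ => E0) a, Ok U o := by
      intro a o ho
      simp only [E0, List.mem_flatMap, List.mem_map, List.mem_filter, List.mem_range,
        decide_eq_true_eq] at ho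
      obtain ⟨g, hg, g', ⟨hg', hlt⟩, rfl⟩ := ho
      exact hQo g g' hlt (by omega)
    obtain ⟨y, -, hy⟩ := diag hU (fun _ _ => True) (fun _ => Filter.Eventually.of_forall fun _ => trivial)
      (fun _ => E0) hE0
    have hpair : ∀ g g', g < g' → g' ≤ r → ∀ F G : Finset ℕ, F.Nonempty → G.Nonempty →
        (∀ s ∈ F, ∀ t ∈ G, s < t) → EvP U k (fun u w =>
          P g g' (Fin.cons (α := fun _ => M) (∑ j ∈ F, y j) u) (Fin.cons (α := fun _ => M) (∑ j ∈ G, y j) w)) := by
      intro g g' h1 h2 F G hF hG hFG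
      have hmem : Qo g g' ∈ E0 := by
        simp only [E0, List.mem_flatMap, List.mem_map, List.mem_filter, List.mem_range,
          decide_eq_true_eq]
        exact ⟨g, by omega, g', ⟨by omega, h1⟩, rfl⟩
      have h3 := hy 0 (Qo g g') hmem (Fin.cons (α := fun _ => Finset ℕ) F (fun _ => G))
        (by
          intro i
          refine Fin.cases ?_ (fun i => ?_) i
          · exact hF
          · exact hG)
        (by
          intro i j
          refine Fin.cases ?_ (fun i => ?_) i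
          · refine Fin.cases ?_ (fun j => ?_) j
            · intro h; exact absurd h (lt_irrefl _)
            · intro _ s hs t ht
              exact hFG s hs t ht
          · intro hij
            exfalso
            have h4 := i.2
            have h5 := j.2
            have h6 : (i.succ : ℕ) < (j : ℕ) := hij
            rw [Fin.val_succ] at h6
            change (i : ℕ) < 1 at h4
            change (j : ℕ) < 2 at h5
            omega)
        (fun i s _ => Nat.zero_le s)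
      exact h3
    set s : ℕ → M := fun g => if (0 : Fin (k + 1)) ∈ J then ∑ i ∈ range (g + 1), y i else y 0 with hs
    set t : ℕ → ℕ → M := fun g g' => if (0 : Fin (k + 1)) ∈ J then ∑ i ∈ Ico (g + 1) (g' + 1), y i else y 1
      with ht
    have hst : ∀ g g', g < g' → g' ≤ r → EvP U k (fun u w =>
          P g g' (Fin.cons (α := fun _ => M) (s g) u) (Fin.cons (α := fun _ => M) (t g g') w)) := by
      intro g g' h1 h2
      by_cases h0 : (0 : Fin (k + 1)) ∈ J
      · have h3 := hpair g g' h1 h2 (range (g + 1)) (Ico (g + 1) (g' + 1)) (by simp) (by simpa using h1)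
          (by
            intro a ha b hb
            rw [mem_range] at ha
            rw [mem_Ico] at hb
            omega)
        simp only [hs, ht, h0, if_true]
        exact h3
      · have h3 := hpair g g' h1 h2 {0} {1} (by simp) (by simp) (by simp)
        rw [Finset.sum_singleton, Finset.sum_singleton] at h3
        simp only [hs, ht, h0, if_false]
        exact h3
    obtain ⟨u', hu'⟩ := ih (univ.filter fun j => j.succ ∈ J)
      (fun g g' u w => P g g' (Fin.cons (α := fun _ => M) (s g) u) (Fin.cons (α := fun _ => M) (t g g') w)) hst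
    refine ⟨Fin.cons (α := fun _ => ℕ → M) y u', fun g g' h1 h2 => ?_⟩
    have h3 := hu' g g' h1 h2
    have e1 : bs J (Fin.cons (α := fun _ => ℕ → M) y u') g =
        Fin.cons (α := fun _ => M) (s g) (bs (univ.filter fun j => j.succ ∈ J) u' g) := by
      funext j
      refine Fin.cases ?_ (fun j => ?_) j
      · simp only [bs, Fin.cons_zero, hs]
      · simp only [bs, Fin.cons_succ, mem_filter, mem_univ, true_and]
    have e2 : st J (Fin.cons (α := fun _ => ℕ → M) y u') g g' =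
        Fin.cons (α := fun _ => M) (t g g') (st (univ.filter fun j => j.succ ∈ J) u' g g') := by
      funext j
      refine Fin.cases ?_ (fun j => ?_) j
      · simp only [st, Fin.cons_zero, ht]
      · simp only [st, Fin.cons_succ, mem_filter, mem_univ, true_and]
    rw [e1, e2]
    exact h3

theorem extract2 (hU : U + U = U) {k C : ℕ} {J : Finset (Fin k)} {φ : Fin C → (Fin k → M) → ℕ → ℤ}
    (Pr : ℕ → (Fin C → ℤ) → (Fin C → ℤ) → Prop)
    (h : EvP U k (fun s t => ∀ᶠ K in (W : Filter ℕ), Pr K (fun i => φ i (base J s t) K)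
      (fun i => φ i (full J s t) K))) (r : ℕ) :
    ∀ᶠ K in (W : Filter ℕ), ∃ Φ : Fin C → ℕ → ℤ, ∀ g g', g < g' → g' ≤ r →
      Pr K (fun i => Φ i g) (fun i => Φ i g') := by
  obtain ⟨u, hu⟩ := tower2 hU r k J (fun _ _ s t => ∀ᶠ K in (W : Filter ℕ), Pr K (fun i => φ i (base J s t) K)
      (fun i => φ i (full J s t) K)) (fun _ _ _ _ => h)
  have h1 : ∀ᶠ K in (W : Filter ℕ), ∀ p ∈ (range (r + 1) ×ˢ range (r + 1)), p.1 < p.2 →
      Pr K (fun i => φ i (pos J u p.1) K) (fun i => φ i (pos J u p.2) K) := by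
    rw [Filter.eventually_all_finset]
    rintro ⟨g, g'⟩ hp
    rw [mem_product, mem_range, mem_range] at hp
    by_cases hlt : g < g'
    · have h2 := hu g g' hlt (by have := hp.2; simp only at this; omega)
      rw [base_bs, full_bs J u hlt] at h2
      exact h2.mono fun s hs _ => hs
    · exact Filter.Eventually.of_forall fun s hs => absurd hs hlt
  refine h1.mono fun K hK => ⟨fun i g => φ i (pos J u g) K, fun g g' h1 h2 => ?_⟩
  exact hK (g, g') (by rw [mem_product, mem_range, mem_range]; constructor <;> simp only <;> omega) h1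

theorem core2 (hU : U + U = U) {C r Λ N : ℕ} (hr : 1 ≤ r) (hC : 1 ≤ C) (hΛ : 0 < Λ) (hN : 0 < N)
    {B : ℕ → ℝ} {Dz : ℕ → ℤ → Prop}
    (hP : ∀ᶠ K in (W : Filter ℕ), DCl C r Λ N (B K + B K) (Dz K)) {k : ℕ}
    {J : Finset (Fin k)} {φ : Fin C → (Fin k → M) → ℕ → ℤ}
    (hφ : ∀ i j v K, (N : ℤ) ∣ φ i v K - φ j v K)
    (hB : EvP U k (fun s t => ∀ᶠ K in (W : Filter ℕ), ∀ i, |(φ i (base J s t) K : ℝ)| ≤ B K)) :
    (∃ i j, i ≤ j ∧ EvP U k (fun s t => ∀ᶠ K in (W : Filter ℕ),
      φ j (full J s t) K = φ i (base J s t) K)) ∨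
    ∃ i j, i < j ∧ EvP U k (fun s t => ∀ᶠ K in (W : Filter ℕ),
      Dz K (φ j (full J s t) K - φ i (base J s t) K)) := by
  classical
  by_contra hcon
  push Not at hcon
  obtain ⟨hc1, hc2⟩ := hcon
  have hΛN : 0 < Λ * N := Nat.mul_pos hΛ hN
  have hΛN0 : ((Λ * N : ℕ) : ℤ) ≠ 0 := by exact_mod_cast hΛN.ne'
  have h1 : ∀ p : Fin C × Fin C, EvP U k (fun s t => ∀ᶠ K in (W : Filter ℕ),
      p.1 ≤ p.2 → ¬ φ p.2 (full J s t) K = φ p.1 (base J s t) K) := by
    intro p
    by_cases hp : p.1 ≤ p.2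
    · exact (evp_not (hc1 p.1 p.2 hp)).mono fun s t hv => hv.mono fun K hK _ => hK
    · exact EvU.of_forall fun v => Filter.Eventually.of_forall fun K h => absurd h hp
  have h2 : ∀ p : Fin C × Fin C, EvP U k (fun s t => ∀ᶠ K in (W : Filter ℕ),
      p.1 < p.2 → ¬ Dz K (φ p.2 (full J s t) K - φ p.1 (base J s t) K)) := by
    intro p
    by_cases hp : p.1 < p.2
    · exact (evp_not (hc2 p.1 p.2 hp)).mono fun s t hv => hv.mono fun K hK _ => hK
    · exact EvU.of_forall fun v => Filter.Eventually.of_forall fun K h => absurd h hp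
  -- the residues
  have h3 : ∃ ρ : Fin C → Fin (Λ * N), EvP U k (fun s t => ∀ᶠ K in (W : Filter ℕ),
      ∀ i, φ i (base J s t) K ≡ ((ρ i : ℕ) : ℤ) [ZMOD ((Λ * N : ℕ) : ℤ)]) := by
    by_contra hno
    push Not at hno
    have h4 := evp_all (W := W) (fun ρ => evp_not (hno ρ))
    obtain ⟨F, hF⟩ := extract2 (W := W) (J := J) (φ := φ) hU (fun K a _ => ∀ ρ : Fin C → Fin (Λ * N),
      ¬ ∀ i, a i ≡ ((ρ i : ℕ) : ℤ) [ZMOD ((Λ * N : ℕ) : ℤ)]) h4 1 |>.exists
    obtain ⟨Φ, hΦ⟩ := hF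
    apply hΦ 0 1 (by norm_num) le_rfl (fun i => ⟨(Φ i 0 % ((Λ * N : ℕ) : ℤ)).toNat, by
      have h5 := Int.emod_nonneg (Φ i 0) hΛN0
      have h6 := Int.emod_lt_of_pos (Φ i 0) (by exact_mod_cast hΛN : (0 : ℤ) < ((Λ * N : ℕ) : ℤ))
      omega⟩)
    intro i
    show Φ i 0 ≡ (((Φ i 0 % ((Λ * N : ℕ) : ℤ)).toNat : ℕ) : ℤ) [ZMOD ((Λ * N : ℕ) : ℤ)]
    rw [Int.toNat_of_nonneg (Int.emod_nonneg _ hΛN0)]
    exact (Int.mod_modEq _ _).symm
  obtain ⟨ρ, hρ⟩ := h3
  have h5 : EvP U k (fun s t => ∀ᶠ K in (W : Filter ℕ), ∀ i j : Fin C,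
      (N : ℤ) ∣ φ i (base J s t) K - φ j (base J s t) K) :=
    EvU.of_forall fun v => Filter.Eventually.of_forall fun K i j => hφ i j _ K
  have h6 := evp_and (evp_and (evp_all h1) (evp_all h2)) (evp_and (evp_and hρ h5) hB)
  have hx := extract2 (W := W) (J := J) (φ := φ) hU (fun K a b =>
    ((∀ p : Fin C × Fin C, p.1 ≤ p.2 → ¬ b p.2 = a p.1) ∧
      (∀ p : Fin C × Fin C, p.1 < p.2 → ¬ Dz K (b p.2 - a p.1))) ∧
    (((∀ i, a i ≡ ((ρ i : ℕ) : ℤ) [ZMOD ((Λ * N : ℕ) : ℤ)]) ∧ ∀ i j : Fin C, (N : ℤ) ∣ a i - a j) ∧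
      ∀ i, |(a i : ℝ)| ≤ B K)) h6 (C * r)
  obtain ⟨K, ⟨Φ, hΦ⟩, hPK⟩ := (hx.and hP).exists
  have hCr : 1 ≤ C * r := Nat.mul_pos hC hr
  have hidx : ∀ (g : Fin C) (i : Fin r), (g : ℕ) * r + i < C * r := by
    intro g i
    have h5 : (g : ℕ) + 1 ≤ C := g.2
    have h6 := Nat.mul_le_mul_right r h5
    have h7 := i.2
    have h8 : ((g : ℕ) + 1) * r = (g : ℕ) * r + r := by ring
    omega
  have hlt : ∀ (g g' : Fin C) (i i' : Fin r), g < g' → (g : ℕ) * r + i < (g' : ℕ) * r + i' := by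
    intro g g' i i' hgg
    have h5 : (g : ℕ) + 1 ≤ g' := hgg
    have h6 := Nat.mul_le_mul_right r h5
    have h7 := i.2
    have h8 : ((g : ℕ) + 1) * r = (g : ℕ) * r + r := by ring
    omega
  have hres : ∀ t, t < C * r → ∀ i, Φ i t ≡ ((ρ i : ℕ) : ℤ) [ZMOD ((Λ * N : ℕ) : ℤ)] :=
    fun t ht => (hΦ t (C * r) ht le_rfl).2.1.1
  have hNd : ∀ t, t < C * r → ∀ i j : Fin C, (N : ℤ) ∣ Φ i t - Φ j t :=
    fun t ht => (hΦ t (C * r) ht le_rfl).2.1.2
  have hbd : ∀ t, t < C * r → ∀ i, |(Φ i t : ℝ)| ≤ B K := fun t ht => (hΦ t (C * r) ht le_rfl).2.2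
  have hdN : (N : ℤ) ∣ ((Λ * N : ℕ) : ℤ) := by exact_mod_cast Dvd.intro_left Λ rfl
  have hdΛ : (Λ : ℤ) ∣ ((Λ * N : ℕ) : ℤ) := by exact_mod_cast Dvd.intro N rfl
  have hsame : ∀ i, ∀ t, t < C * r → ∀ t', t' < C * r → ((Λ * N : ℕ) : ℤ) ∣ Φ i t - Φ i t' := by
    intro i t ht t' ht'
    exact Int.modEq_iff_dvd.1 ((hres t' ht' i).trans (hres t ht i).symm)
  obtain ⟨g, g', i, i', hgg, hDz⟩ := hPK (fun g i => Φ g ((g : ℕ) * r + i) - Φ ⟨0, hC⟩ 0) (by
      rintro ⟨g, i⟩ ⟨g', i'⟩ hxy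
      simp only at hxy
      rcases lt_trichotomy g g' with hg | hg | hg
      · exfalso
        have h5 := (hΦ _ _ (hlt g g' i i' hg) (hidx g' i').le).1.1 (g, g') hg.le
        simp only at h5
        apply h5
        linarith
      · subst hg
        rcases lt_trichotomy i i' with hi | hi | hi
        · exfalso
          have h5 := (hΦ ((g : ℕ) * r + i) ((g : ℕ) * r + i')
            (by have : (i : ℕ) < i' := hi; omega) (hidx g i').le).1.1 (g, g) le_rfl
          simp only at h5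
          apply h5
          linarith
        · rw [hi]
        · exfalso
          have h5 := (hΦ ((g : ℕ) * r + i') ((g : ℕ) * r + i)
            (by have : (i' : ℕ) < i := hi; omega) (hidx g i).le).1.1 (g, g) le_rfl
          simp only at h5
          apply h5
          linarith
      · exfalso
        have h5 := (hΦ _ _ (hlt g' g i' i hg) (hidx g i).le).1.1 (g', g) hg.le
        simp only at h5
        apply h5
        linarith)
    (fun g i => by
      have h7 := hNd _ (hidx g i) g ⟨0, hC⟩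
      have h8 := hdN.trans (hsame ⟨0, hC⟩ _ (hidx g i) 0 (by omega))
      have e : Φ g ((g : ℕ) * r + i) - Φ ⟨0, hC⟩ 0 = (Φ g ((g : ℕ) * r + i) - Φ ⟨0, hC⟩ ((g : ℕ) * r + i)) +
        (Φ ⟨0, hC⟩ ((g : ℕ) * r + i) - Φ ⟨0, hC⟩ 0) := by ring
      rw [e]
      exact dvd_add h7 h8)
    (fun g i i' => by
      have h7 := hdΛ.trans (hsame g _ (hidx g i) _ (hidx g i'))
      have e : Φ g ((g : ℕ) * r + i) - Φ ⟨0, hC⟩ 0 - (Φ g ((g : ℕ) * r + i') - Φ ⟨0, hC⟩ 0) =
        Φ g ((g : ℕ) * r + i) - Φ g ((g : ℕ) * r + i') := by ring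
      rw [e]
      exact h7)
    (fun g i => by
      have h7 := hbd _ (hidx g i) g
      have h8 := hbd 0 (by omega) ⟨0, hC⟩
      have e : ((Φ g ((g : ℕ) * r + i) - Φ ⟨0, hC⟩ 0 : ℤ) : ℝ) =
        (Φ g ((g : ℕ) * r + i) : ℝ) - (Φ ⟨0, hC⟩ 0 : ℝ) := by push_cast; ring
      rw [e]
      exact (abs_sub _ _).trans (add_le_add h7 h8))
  have h7 := (hΦ _ _ (hlt g g' i i' hgg) (hidx g' i').le).1.2 (g, g') hgg
  apply h7
  have e : Φ g' ((g' : ℕ) * r + i') - Φ g ((g : ℕ) * r + i) =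
    Φ g' ((g' : ℕ) * r + i') - Φ ⟨0, hC⟩ 0 - (Φ g ((g : ℕ) * r + i) - Φ ⟨0, hC⟩ 0) := by ring
  simp only
  rw [e]
  exact hDz

end

end Pool.Agent.H469S
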