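import Mathlib
import Pool.Agent.H469S.Pair

/-!
# The uniform finite theorem for arbitrary functions
-/

set_option autoImplicit false

namespace Pool.Agent.H469S

open Filter Finset

attribute [local instance] Ultrafilter.mul Ultrafilter.add
attribute [local instance] Ultrafilter.semigroup Ultrafilter.addSemigroup

set_option linter.unusedSectionVars false

/-- the data of the theorem -/
structure DataY (m C : ℕ) where
  A : Type
  inst : AddCommMonoid A
  φ : Fin m → (k : ℕ) → Fin C → (Fin k → A) → ℤ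
  J : Fin m → (k : ℕ) → Finset (Fin k)
  x : ℕ → A

attribute [instance] DataY.inst

/-- the values are bounded by `B` -/
def BdY {m C : ℕ} (D : DataY m C) (B : Fin m → ℝ) (K : ℕ) : Prop :=
  ∀ b k (F : Fin k → Finset ℕ), Blocks F → (∀ l, ∀ t ∈ F l, t < K) →
    ∀ i, |(D.φ b k i (fun l => ∑ t ∈ F l, D.x t) : ℝ)| ≤ B b

/-- `F_l < G_l < F_(l+1) < G_(l+1)`, all `G_l` nonempty, `F_l` nonempty if `l ∈ J` and empty otherwise -/
def Pairs {m k : ℕ} (J : Finset (Fin k)) (F G : Fin k → Finset (Fin m)) : Prop :=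
  (∀ l, (G l).Nonempty ∧ ((F l).Nonempty ↔ l ∈ J)) ∧ (∀ l, ∀ s ∈ F l, ∀ t ∈ G l, s < t) ∧
    ∀ l l', l < l' → ∀ s ∈ F l ∪ G l, ∀ t ∈ F l' ∪ G l', s < t

theorem le_of_pairs {m k : ℕ} {J : Finset (Fin k)} {F G : Fin k → Finset (Fin m)} (h : Pairs J F G) :
    k ≤ m := by
  apply le_of_blocks (F := G)
  exact ⟨fun i => (h.1 i).1, fun i j hij s hs t ht =>
    h.2.2 i j hij s (mem_union_right _ hs) t (mem_union_right _ ht)⟩

/-- the first vector -/
def vbase {A : Type*} [AddCommMonoid A] {m k : ℕ} (H : Fin m → Finset ℕ) (x : ℕ → A) (J : Finset (Fin k))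
    (F G : Fin k → Finset (Fin m)) : Fin k → A :=
  vec H x (fun l => if l ∈ J then F l else G l)

/-- the second vector -/
def vfull {A : Type*} [AddCommMonoid A] {m k : ℕ} (H : Fin m → Finset ℕ) (x : ℕ → A)
    (F G : Fin k → Finset (Fin m)) : Fin k → A :=
  vec H x (fun l => F l ∪ G l)

/-- the conclusion for given data and bound -/
def HoldsY {m C : ℕ} (Dz : Fin m → ℤ → Prop) (D : DataY m C) (K : ℕ) : Prop :=
  ∃ H : Fin m → Finset ℕ, Blocks H ∧ (∀ i, ∀ t ∈ H i, t < K) ∧
    ∀ b k, (∃ i j, i ≤ j ∧ ∀ F G : Fin k → Finset (Fin m), Pairs (D.J b k) F G →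
        D.φ b k j (vfull H D.x F G) = D.φ b k i (vbase H D.x (D.J b k) F G)) ∨
      ∃ i j, i < j ∧ ∀ F G : Fin k → Finset (Fin m), Pairs (D.J b k) F G →
        Dz b (D.φ b k j (vfull H D.x F G) - D.φ b k i (vbase H D.x (D.J b k) F G))

/-- the sum over a multiset -/
def XY {m C : ℕ} (D : DataY m C) : Multiset ℕ →+ D.A where
  toFun s := (s.map D.x).sum
  map_zero' := by simp
  map_add' s t := by rw [Multiset.map_add, Multiset.sum_add]

theorem XY_toFinset {m C : ℕ} (D : DataY m C) {s : Multiset ℕ} (hs : s.Nodup) :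
    XY D s = ∑ t ∈ s.toFinset, D.x t := by
  show (s.map D.x).sum = (s.toFinset.val.map D.x).sum
  rw [Multiset.toFinset_val, hs.dedup]

section

variable {m C : ℕ} (D : ℕ → DataY m C)

open Classical in
/-- the functions at the limit -/
noncomputable def fY (b : Fin m) (k : ℕ) (J0 : Finset (Fin k)) (i : Fin C) (v : Fin k → Multiset ℕ) (K : ℕ) : ℤ :=
  if (D K).J b k = J0 then (D K).φ b k i (fun l => XY (D K) (v l)) else 0

theorem fY_bd {B : ℕ → Fin m → ℝ} (hBd : ∀ K, BdY (D K) (B K) K) (hB0 : ∀ K b, 0 ≤ B K b)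
    {U : Ultrafilter (Multiset ℕ)}
    (hU : ∀ n, ∀ᶠ s in (U : Filter (Multiset ℕ)), Good n s) (b : Fin m) (k : ℕ) (J0 : Finset (Fin k)) :
    EvP U k (fun s t => ∀ᶠ K in ((hyperfilter ℕ : Ultrafilter ℕ) : Filter ℕ),
      ∀ i, |(fY D b k J0 i (base J0 s t) K : ℝ)| ≤ B K b) := by
  refine (evU_incr hU (2 * k) 0).mono fun w hw => ?_
  set v : Fin k → Multiset ℕ := base J0 (fun l => w (i0 l)) (fun l => w (i1 l)) with hv
  have hgood : ∀ l, Good 0 (v l) := by
    intro l
    by_cases hl : l ∈ J0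
    · simp only [hv, base, hl, if_true]; exact hw.1 _
    · simp only [hv, base, hl, if_false]; exact hw.1 _
  have hincr : ∀ l l', l < l' → ∀ s ∈ v l, ∀ t ∈ v l', s < t := by
    intro l l' hll
    have h1 : (l : ℕ) < l' := hll
    by_cases hl : l ∈ J0 <;> by_cases hl' : l' ∈ J0 <;>
      simp only [hv, base, hl, hl', if_true, if_false] <;>
      refine hw.2 _ _ ?_ <;> simp only [i0, i1, Fin.lt_def] <;> omega
  refine (lt_hyper (∑ i, (v i).sum)).mono fun K hK i => ?_
  by_cases h : (D K).J b k = J0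
  · simp only [fY, h, if_true]
    have h1 := hBd K b k (fun l => (v l).toFinset)
      ⟨fun i => by
        obtain ⟨t, ht⟩ := Multiset.exists_mem_of_ne_zero (hgood i).2.1
        exact ⟨t, Multiset.mem_toFinset.2 ht⟩,
       fun i j hij s hs t ht => hincr i j hij s (Multiset.mem_toFinset.1 hs) t (Multiset.mem_toFinset.1 ht)⟩
      (by
        intro l t ht
        have h2 : t ≤ (v l).sum :=
          Multiset.single_le_sum (fun x _ => Nat.zero_le x) t (Multiset.mem_toFinset.1 ht)
        have h3 : (v l).sum ≤ ∑ i, (v i).sum :=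
          Finset.single_le_sum (f := fun i : Fin k => (v i).sum) (fun _ _ => Nat.zero_le _) (Finset.mem_univ l)
        omega) i
    have e : (fun i => XY (D K) (v i)) = fun l => ∑ t ∈ (v l).toFinset, (D K).x t := by
      funext l
      exact XY_toFinset (D K) (hgood l).1
    rw [e]
    exact h1
  · simp only [fY, h, if_false]
    simpa using hB0 K b

end

/-- the doubled blocks: the pairs as blocks of indices `2 s + 1`, and a dummy index `2 s` for `l ∉ J` -/
def dbl {m k : ℕ} (J : Finset (Fin k)) (F G : Fin k → Finset (Fin m)) (hG : ∀ l, (G l).Nonempty) :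
    Fin (2 * k) → Finset ℕ := fun n =>
  if n.val % 2 = 0 then
    (if (⟨n.val / 2, by omega⟩ : Fin k) ∈ J then (F ⟨n.val / 2, by omega⟩).image (fun s : Fin m => 2 * (s : ℕ) + 1)
      else {2 * (((G ⟨n.val / 2, by omega⟩).min' (hG _) : Fin m) : ℕ)})
  else (G ⟨n.val / 2, by omega⟩).image (fun s : Fin m => 2 * (s : ℕ) + 1)

theorem dbl_i0 {m k : ℕ} (J : Finset (Fin k)) (F G : Fin k → Finset (Fin m)) (hG : ∀ l, (G l).Nonempty)
    (l : Fin k) : dbl J F G hG (i0 l) = if l ∈ J then (F l).image (fun s : Fin m => 2 * (s : ℕ) + 1)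
      else {2 * (((G l).min' (hG l) : Fin m) : ℕ)} := by
  have h1 : (i0 l).val % 2 = 0 := by simp [i0]
  have h2 : (⟨(i0 l).val / 2, by have := (i0 l).2; omega⟩ : Fin k) = l := by
    apply Fin.ext
    simp [i0]
  unfold dbl
  rw [if_pos h1]
  simp only [h2]

theorem dbl_i1 {m k : ℕ} (J : Finset (Fin k)) (F G : Fin k → Finset (Fin m)) (hG : ∀ l, (G l).Nonempty)
    (l : Fin k) : dbl J F G hG (i1 l) = (G l).image (fun s : Fin m => 2 * (s : ℕ) + 1) := by
  have h1 : ¬ (i1 l).val % 2 = 0 := by simp [i1, Nat.add_mod]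
  have h2 : (⟨(i1 l).val / 2, by have := (i1 l).2; omega⟩ : Fin k) = l := by
    apply Fin.ext
    show (2 * (l : ℕ) + 1) / 2 = l
    omega
  unfold dbl
  rw [if_neg h1]
  simp only [h2]

theorem idx_cases {k : ℕ} (n : Fin (2 * k)) : ∃ l : Fin k, n = i0 l ∨ n = i1 l := by
  refine ⟨⟨n.val / 2, by have := n.2; omega⟩, ?_⟩
  rcases Nat.mod_two_eq_zero_or_one n.val with h | h
  · left
    apply Fin.ext
    show n.val = 2 * (n.val / 2)
    omega
  · right
    apply Fin.ext
    show n.val = 2 * (n.val / 2) + 1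
    omega

theorem dbl_blocks {m k : ℕ} {J : Finset (Fin k)} {F G : Fin k → Finset (Fin m)} (h : Pairs J F G) :
    Blocks (dbl J F G (fun l => (h.1 l).1)) := by
  have hG : ∀ l, (G l).Nonempty := fun l => (h.1 l).1
  -- elements of the even and odd blocks
  have he0 : ∀ l, ∀ s ∈ dbl J F G (fun l => (h.1 l).1) (i0 l),
      (∃ s' ∈ F l, s = 2 * (s' : ℕ) + 1) ∨ (s = 2 * (((G l).min' (hG l) : Fin m) : ℕ)) := by
    intro l s hs
    rw [dbl_i0] at hs
    by_cases hl : l ∈ J
    · rw [if_pos hl, mem_image] at hs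
      obtain ⟨s', hs', rfl⟩ := hs
      exact Or.inl ⟨s', hs', rfl⟩
    · rw [if_neg hl, mem_singleton] at hs
      exact Or.inr hs
  have he1 : ∀ l, ∀ s ∈ dbl J F G (fun l => (h.1 l).1) (i1 l), ∃ s' ∈ G l, s = 2 * (s' : ℕ) + 1 := by
    intro l s hs
    rw [dbl_i1, mem_image] at hs
    obtain ⟨s', hs', rfl⟩ := hs
    exact ⟨s', hs', rfl⟩
  constructor
  · intro n
    obtain ⟨l, rfl | rfl⟩ := idx_cases n
    · rw [dbl_i0]
      by_cases hl : l ∈ J
      · rw [if_pos hl]
        exact ((h.1 l).2.2 hl).image _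
      · rw [if_neg hl]
        exact singleton_nonempty _
    · rw [dbl_i1]
      exact (hG l).image _
  · intro n n' hnn s hs t ht
    obtain ⟨l, hl⟩ := idx_cases n
    obtain ⟨l', hl'⟩ := idx_cases n'
    rcases hl with rfl | rfl <;> rcases hl' with rfl | rfl
    · have hll : l < l' := by
        have h1 : 2 * (l : ℕ) < 2 * (l' : ℕ) := hnn
        show (l : ℕ) < l'
        omega
      have hmin := (G l').min'_mem (hG l')
      have hminl := (G l).min'_mem (hG l)
      rcases he0 l s hs with ⟨s', hs', rfl⟩ | rfl <;> rcases he0 l' t ht with ⟨t', ht', rfl⟩ | rfl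
      · have h1 : (s' : ℕ) < t' := h.2.2 l l' hll s' (mem_union_left _ hs') t' (mem_union_left _ ht')
        omega
      · have h1 : (s' : ℕ) < ((G l').min' (hG l') : Fin m) :=
          h.2.2 l l' hll s' (mem_union_left _ hs') _ (mem_union_right _ hmin)
        omega
      · have h1 : ((((G l).min' (hG l) : Fin m)) : ℕ) < t' :=
          h.2.2 l l' hll _ (mem_union_right _ hminl) t' (mem_union_left _ ht')
        omega
      · have h1 : ((((G l).min' (hG l) : Fin m)) : ℕ) < ((G l').min' (hG l') : Fin m) :=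
          h.2.2 l l' hll _ (mem_union_right _ hminl) _ (mem_union_right _ hmin)
        omega
    · -- `i0 l < i1 l'`: `l ≤ l'`
      have hll : (l : ℕ) ≤ l' := by
        have h1 : 2 * (l : ℕ) < 2 * (l' : ℕ) + 1 := hnn
        omega
      obtain ⟨t', ht', rfl⟩ := he1 l' t ht
      have hminl := (G l).min'_mem (hG l)
      rcases Nat.lt_or_eq_of_le hll with hlt | heq
      · have hlt' : l < l' := hlt
        rcases he0 l s hs with ⟨s', hs', rfl⟩ | rfl
        · have h1 : (s' : ℕ) < t' := h.2.2 l l' hlt' s' (mem_union_left _ hs') t' (mem_union_right _ ht')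
          omega
        · have h1 : ((((G l).min' (hG l) : Fin m)) : ℕ) < t' :=
            h.2.2 l l' hlt' _ (mem_union_right _ hminl) t' (mem_union_right _ ht')
          omega
      · have heq' : l = l' := Fin.ext heq
        subst heq'
        rcases he0 l s hs with ⟨s', hs', rfl⟩ | rfl
        · have h1 : (s' : ℕ) < t' := h.2.1 l s' hs' t' ht'
          omega
        · have h1 : ((((G l).min' (hG l) : Fin m)) : ℕ) ≤ t' := (G l).min'_le t' ht'
          omega
    · have hll : l < l' := by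
        have h1 : 2 * (l : ℕ) + 1 < 2 * (l' : ℕ) := hnn
        show (l : ℕ) < l'
        omega
      obtain ⟨s', hs', rfl⟩ := he1 l s hs
      have hmin := (G l').min'_mem (hG l')
      rcases he0 l' t ht with ⟨t', ht', rfl⟩ | rfl
      · have h1 : (s' : ℕ) < t' := h.2.2 l l' hll s' (mem_union_right _ hs') t' (mem_union_left _ ht')
        omega
      · have h1 : (s' : ℕ) < ((G l').min' (hG l') : Fin m) :=
          h.2.2 l l' hll s' (mem_union_right _ hs') _ (mem_union_right _ hmin)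
        omega
    · have hll : l < l' := by
        have h1 : 2 * (l : ℕ) + 1 < 2 * (l' : ℕ) + 1 := hnn
        show (l : ℕ) < l'
        omega
      obtain ⟨s', hs', rfl⟩ := he1 l s hs
      obtain ⟨t', ht', rfl⟩ := he1 l' t ht
      have h1 : (s' : ℕ) < t' := h.2.2 l l' hll s' (mem_union_right _ hs') t' (mem_union_right _ ht')
      omega

theorem main_dataY {C r Λ N : ℕ} (hr : 1 ≤ r) (hC : 1 ≤ C) (hΛ : 0 < Λ) (hN : 0 < N)
    {m : ℕ} {B : ℕ → Fin m → ℝ} (hB0 : ∀ K b, 0 ≤ B K b) {Dz : ℕ → Fin m → ℤ → Prop}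
    (hP : ∀ b, ∀ᶠ K in ((hyperfilter ℕ : Ultrafilter ℕ) : Filter ℕ), DCl C r Λ N (B K b + B K b) (Dz K b))
    (D : ℕ → DataY m C) (hφ : ∀ K b k i j v, (N : ℤ) ∣ (D K).φ b k i v - (D K).φ b k j v)
    (hBd : ∀ K, BdY (D K) (B K) K) :
    ∃ K, HoldsY (Dz K) (D K) K := by
  classical
  obtain ⟨U, hU, hgood⟩ := exists_idem
  set W : Ultrafilter ℕ := hyperfilter ℕ with hW
  -- the dichotomy
  have hQ : ∀ (b : Fin m) (k : ℕ) (J0 : Finset (Fin k)),
      ∃ Q : (Fin k → Multiset ℕ) → (Fin k → Multiset ℕ) → ℕ → Prop,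
      EvP U k (fun s t => ∀ᶠ K in (W : Filter ℕ), Q s t K) ∧
      ((∃ i j, i ≤ j ∧ ∀ s t K, Q s t K → fY D b k J0 j (full J0 s t) K = fY D b k J0 i (base J0 s t) K) ∨
      ∃ i j, i < j ∧ ∀ s t K, Q s t K →
        Dz K b (fY D b k J0 j (full J0 s t) K - fY D b k J0 i (base J0 s t) K)) := by
    intro b k J0
    rcases core2 (W := W) (J := J0) (φ := fY D b k J0) (B := fun K => B K b) (Dz := fun K => Dz K b)
      hU hr hC hΛ hN (hP b) (by
      intro i j v K
      by_cases h : (D K).J b k = J0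
      · simp only [fY, h, if_true]
        exact hφ K b k i j _
      · simp only [fY, h, if_false, sub_self, dvd_zero]) (fY_bd D hBd hB0 hgood b k J0) with
      ⟨i, j, hij, h⟩ | ⟨i, j, hij, h⟩
    · exact ⟨_, h, Or.inl ⟨i, j, hij, fun s t K h => h⟩⟩
    · exact ⟨_, h, Or.inr ⟨i, j, hij, fun s t K h => h⟩⟩
  choose Q hQ1 hQ2 using hQ
  -- the obligations
  set E0 : List (Ob (Multiset ℕ)) := (List.range (m + 1)).flatMap fun k =>
    ((Finset.univ : Finset (Fin m × Finset (Fin k))).toList.map fun p =>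
      (⟨2 * k, fun w => ∀ᶠ K in (W : Filter ℕ), Q p.1 k p.2 (fun l => w (i0 l)) (fun l => w (i1 l)) K⟩ :
        Ob (Multiset ℕ))) with hE0
  have hE : ∀ a : ℕ, ∀ o ∈ (fun _ : ℕ => E0) a, Ok U o := by
    intro a o ho
    simp only [hE0, List.mem_flatMap, List.mem_map] at ho
    obtain ⟨k, -, p, -, rfl⟩ := ho
    exact hQ1 p.1 k p.2
  obtain ⟨y, hy1, hy2⟩ := diag hU (fun s y => Good (s.sum + 1) y) (fun s => hgood _) (fun _ => E0) hE
  have hmem : ∀ (b : Fin m) (k : ℕ) (J0 : Finset (Fin k)), k ≤ m →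
      (⟨2 * k, fun w => ∀ᶠ K in (W : Filter ℕ), Q b k J0 (fun l => w (i0 l)) (fun l => w (i1 l)) K⟩ :
        Ob (Multiset ℕ)) ∈ E0 := by
    intro b k J0 hk
    simp only [hE0, List.mem_flatMap, List.mem_map]
    exact ⟨k, List.mem_range.2 (by omega), (b, J0), Finset.mem_toList.2 (Finset.mem_univ _), rfl⟩
  -- the blocks
  let H : Fin m → Finset ℕ := fun n => (y (2 * n + 1)).toFinset
  have hylt : ∀ i j : ℕ, i < j → ∀ s ∈ y i, ∀ t ∈ y j, s < t := by
    intro i j hij s hs' t ht'
    have h1 := (hy1 j).2.2 t ht'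
    have h2 : s ≤ (∑ l ∈ range j, y l).sum := by
      have h3 : s ∈ ∑ l ∈ range j, y l := by
        rw [Multiset.mem_sum]
        exact ⟨i, Finset.mem_range.2 hij, hs'⟩
      exact Multiset.single_le_sum (fun x _ => Nat.zero_le x) s h3
    omega
  have hHlt : Blocks H := by
    constructor
    · intro i
      have h1 := (hy1 (2 * i + 1)).2.1
      obtain ⟨t, ht⟩ := Multiset.exists_mem_of_ne_zero h1
      exact ⟨t, Multiset.mem_toFinset.2 ht⟩
    · intro i j hij s hs t ht
      have hij' : (i : ℕ) < j := hij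
      exact hylt (2 * i + 1) (2 * j + 1) (by omega) s (Multiset.mem_toFinset.1 hs) t (Multiset.mem_toFinset.1 ht)
  have hinj : Function.Injective (fun s : Fin m => 2 * (s : ℕ) + 1) := by
    intro s t hst
    apply Fin.ext
    simp only at hst
    omega
  have hsum : ∀ S : Finset (Fin m), ∑ j ∈ S.image (fun s : Fin m => 2 * (s : ℕ) + 1), y j =
      ∑ s ∈ S, y (2 * (s : ℕ) + 1) := fun S => Finset.sum_image (fun a _ b _ h => hinj h)
  have hXs : ∀ (K : ℕ) (S : Finset (Fin m)), XY (D K) (∑ s ∈ S, y (2 * (s : ℕ) + 1)) =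
      ∑ s ∈ S, ∑ t ∈ H s, (D K).x t := by
    intro K S
    rw [map_sum]
    exact Finset.sum_congr rfl fun j _ => XY_toFinset (D K) (hy1 _).1
  have hbase : ∀ (K k : ℕ) (J0 : Finset (Fin k)) (F G : Fin k → Finset (Fin m)) (h : Pairs J0 F G),
      (fun l => XY (D K) (base J0 (fun l => ∑ j ∈ dbl J0 F G (fun l => (h.1 l).1) (i0 l), y j)
        (fun l => ∑ j ∈ dbl J0 F G (fun l => (h.1 l).1) (i1 l), y j) l)) = vbase H (D K).x J0 F G := by
    intro K k J0 F G h
    funext l
    by_cases hl : l ∈ J0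
    · simp only [base, vbase, vec, dbl_i0, hl, if_true, hsum, hXs]
    · simp only [base, vbase, vec, dbl_i1, hl, if_false, hsum, hXs]
  have hfull : ∀ (K k : ℕ) (J0 : Finset (Fin k)) (F G : Fin k → Finset (Fin m)) (h : Pairs J0 F G),
      (fun l => XY (D K) (full J0 (fun l => ∑ j ∈ dbl J0 F G (fun l => (h.1 l).1) (i0 l), y j)
        (fun l => ∑ j ∈ dbl J0 F G (fun l => (h.1 l).1) (i1 l), y j) l)) = vfull H (D K).x F G := by
    intro K k J0 F G h
    funext l
    have hdisj : Disjoint (F l) (G l) := by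
      rw [Finset.disjoint_left]
      intro a ha hb
      exact lt_irrefl _ (h.2.1 l a ha a hb)
    by_cases hl : l ∈ J0
    · simp only [full, vfull, vec, dbl_i0, dbl_i1, hl, if_true, hsum, map_add, hXs]
      exact (Finset.sum_union hdisj).symm
    · have hFe : F l = ∅ := by
        by_contra hne
        exact hl ((h.1 l).2.1 (Finset.nonempty_iff_ne_empty.2 hne))
      simp only [full, vfull, vec, dbl_i1, hl, if_false, hsum, hXs, hFe, Finset.empty_union]
  have hev : ∀ᶠ K in (W : Filter ℕ), ∀ k ∈ Finset.range (m + 1), ∀ (b : Fin m) (J0 : Finset (Fin k))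
      (F G : Fin k → Finset (Fin m)) (h : Pairs J0 F G),
      Q b k J0 (fun l => ∑ j ∈ dbl J0 F G (fun l => (h.1 l).1) (i0 l), y j)
        (fun l => ∑ j ∈ dbl J0 F G (fun l => (h.1 l).1) (i1 l), y j) K := by
    rw [Filter.eventually_all_finset]
    intro k hk
    rw [Finset.mem_range] at hk
    rw [Filter.eventually_all]
    intro b
    rw [Filter.eventually_all]
    intro J0
    rw [Filter.eventually_all]
    intro F
    rw [Filter.eventually_all]
    intro G
    by_cases hF : Pairs J0 F G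
    · have hbl := dbl_blocks hF
      have h1 := hy2 0 _ (hmem b k J0 (by omega)) (dbl J0 F G (fun l => (hF.1 l).1)) hbl.1 hbl.2
        (fun i s _ => Nat.zero_le s)
      simp only at h1
      exact h1.mono fun K hK _ => hK
    · exact Filter.Eventually.of_forall fun K h => absurd h hF
  have hge : ∀ᶠ K in (W : Filter ℕ), ∀ i, ∀ t ∈ H i, t < K := by
    refine (lt_hyper (∑ i, (y (2 * (i : Fin m) + 1)).sum)).mono fun K hK i t ht => ?_
    have h2 : t ≤ (y (2 * (i : ℕ) + 1)).sum :=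
      Multiset.single_le_sum (fun x _ => Nat.zero_le x) t (Multiset.mem_toFinset.1 ht)
    have h3 : (y (2 * (i : ℕ) + 1)).sum ≤ ∑ i, (y (2 * (i : Fin m) + 1)).sum :=
      Finset.single_le_sum (f := fun i : Fin m => (y (2 * (i : ℕ) + 1)).sum) (fun _ _ => Nat.zero_le _)
        (Finset.mem_univ i)
    omega
  obtain ⟨K, hK1, hK2⟩ := (hev.and hge).exists
  refine ⟨K, H, hHlt, hK2, fun b k => ?_⟩
  by_cases hk : k ≤ m
  · rcases hQ2 b k ((D K).J b k) with ⟨i, j, hij, h⟩ | ⟨i, j, hij, h⟩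
    · left
      refine ⟨i, j, hij, fun F G hFG => ?_⟩
      have h1 := h _ _ _ (hK1 k (Finset.mem_range.2 (by omega)) b ((D K).J b k) F G hFG)
      simp only [fY, if_true] at h1
      rw [hfull K k _ F G hFG, hbase K k _ F G hFG] at h1
      exact h1
    · right
      refine ⟨i, j, hij, fun F G hFG => ?_⟩
      have h1 := h _ _ _ (hK1 k (Finset.mem_range.2 (by omega)) b ((D K).J b k) F G hFG)
      simp only [fY, if_true] at h1
      rw [hfull K k _ F G hFG, hbase K k _ F G hFG] at h1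
      exact h1
  · left
    refine ⟨⟨0, hC⟩, ⟨0, hC⟩, le_rfl, fun F G hFG => ?_⟩
    exact absurd (le_of_pairs hFG) hk

end Pool.Agent.H469S
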