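import Mathlib
import Pool.Agent.H469S.RecX
import Pool.Agent.H469S.MainY

/-! The uniform theorem for arbitrary functions of blocks, at every scale. -/

set_option autoImplicit false

namespace Pool.Agent.H469S

open Filter Finset
open Pool.Agent.Y877 (gapCount)
open Pool.Agent.H256R2.SC (ff)

theorem toFinset_sum_singleton (F : Finset ℕ) : (∑ t ∈ F, ({t} : Multiset ℕ)).toFinset = F := by
  rw [Finset.sum_multiset_singleton, Finset.val_toFinset]

theorem toFinset_vec {m k : ℕ} (H : Fin m → Finset ℕ) (F : Fin k → Finset (Fin m)) (l : Fin k) :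
    (vec H (fun t => ({t} : Multiset ℕ)) F l).toFinset = (F l).biUnion H := by
  ext a
  show a ∈ (∑ j ∈ F l, ∑ t ∈ H j, ({t} : Multiset ℕ)).toFinset ↔ _
  simp only [Finset.sum_multiset_singleton]
  rw [Multiset.mem_toFinset, Multiset.mem_sum, Finset.mem_biUnion]
  rfl

theorem mainY : ∃ C : ℕ, 2 ≤ C ∧ ∀ d : ℕ, Squarefree d → (∀ p : ℕ, p.Prime → p ≤ C → p ∣ d) →
    ∃ c X₀ : ℝ, 0 < c ∧ ∀ m : ℕ, ∃ K : ℕ, ∀ X : Fin m → ℝ, (∀ b, X₀ ≤ X b) →
      ∀ a : Fin m → ℕ, (∀ b, Nat.Coprime (a b) d) →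
      ∀ (φ : Fin m → (k : ℕ) → Fin C → (Fin k → Finset ℕ) → ℤ) (J : Fin m → (k : ℕ) → Finset (Fin k)),
      (∀ b k i j F, (d : ℤ) ∣ φ b k i F - φ b k j F) →
      (∀ b k i (F : Fin k → Finset ℕ), Blocks F → (∀ l, ∀ t ∈ F l, t < K) →
        |(φ b k i F : ℝ)| ≤ c * ff (X b)) →
      ∃ H : Fin m → Finset ℕ, Blocks H ∧ (∀ i, ∀ t ∈ H i, t < K) ∧
        ∀ b k, (∃ i j, i ≤ j ∧ ∀ F G : Fin k → Finset (Fin m), Pairs (J b k) F G →
            φ b k j (fun l => (F l ∪ G l).biUnion H) =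
              φ b k i (fun l => (if l ∈ J b k then F l else G l).biUnion H)) ∨
          ∃ i j, i < j ∧ ∀ F G : Fin k → Finset (Fin m), Pairs (J b k) F G →
            φ b k j (fun l => (F l ∪ G l).biUnion H) -
              φ b k i (fun l => (if l ∈ J b k then F l else G l).biUnion H) ≠ 0 ∧
            X b ^ (6 / 7 : ℝ) ≤ gapCount (X b) d (a b) (φ b k j (fun l => (F l ∪ G l).biUnion H) -
              φ b k i (fun l => (if l ∈ J b k then F l else G l).biUnion H)).natAbs := by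
  obtain ⟨C, hC2, h⟩ := recDCl
  refine ⟨C, hC2, fun d hd hpd => ?_⟩
  obtain ⟨r, Λ, c, hr, hΛ, hc, hev⟩ := h d hd hpd
  obtain ⟨X₀, hX₀⟩ := eventually_atTop.1 hev
  have hd0 : 0 < d := Nat.pos_of_ne_zero hd.ne_zero
  refine ⟨c, X₀, hc, fun m => ?_⟩
  by_contra hcon
  have h1 : ∀ K : ℕ, ∃ (X : Fin m → ℝ) (a : Fin m → ℕ) (D : DataY m C), (∀ b, X₀ ≤ X b) ∧
      (∀ b, (a b).Coprime d) ∧
      (∀ b k i j v, (d : ℤ) ∣ D.φ b k i v - D.φ b k j v) ∧ BdY D (fun b => c * ff (X b)) K ∧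
      ¬ HoldsY (fun b z => z ≠ 0 ∧ X b ^ (6 / 7 : ℝ) ≤ gapCount (X b) d (a b) z.natAbs) D K := by
    intro K
    by_contra h2
    push Not at h2
    apply hcon
    refine ⟨K, fun X hX a ha φ J hφ hbd => ?_⟩
    have h3 := h2 X a ⟨Multiset ℕ, inferInstance, fun b k i v => φ b k i (fun l => (v l).toFinset), J,
      fun t => {t}⟩ hX ha (fun b k i j v => hφ b k i j _) (by
        intro b k F hF hFK i
        show |(φ b k i (fun l => (∑ t ∈ F l, ({t} : Multiset ℕ)).toFinset) : ℝ)| ≤ c * ff (X b)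
        simp only [toFinset_sum_singleton]
        exact hbd b k i F hF hFK)
    obtain ⟨H, hH, hHK, h4⟩ := h3
    refine ⟨H, hH, hHK, fun b k => ?_⟩
    have hf : ∀ (F G : Fin k → Finset (Fin m)),
        (fun l => (vfull H (fun t => ({t} : Multiset ℕ)) F G l).toFinset) =
          fun l => (F l ∪ G l).biUnion H := by
      intro F G
      funext l
      exact toFinset_vec H _ l
    have hb : ∀ (F G : Fin k → Finset (Fin m)),
        (fun l => (vbase H (fun t => ({t} : Multiset ℕ)) (J b k) F G l).toFinset) =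
          fun l => (if l ∈ J b k then F l else G l).biUnion H := by
      intro F G
      funext l
      exact toFinset_vec H _ l
    rcases h4 b k with ⟨i, j, hij, h5⟩ | ⟨i, j, hij, h5⟩
    · left
      refine ⟨i, j, hij, fun F G hFG => ?_⟩
      have h6 := h5 F G hFG
      simp only [hf, hb] at h6
      exact h6
    · right
      refine ⟨i, j, hij, fun F G hFG => ?_⟩
      have h6 := h5 F G hFG
      simp only [hf, hb] at h6
      exact h6
  choose X a D hX ha hφ hB hD using h1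
  obtain ⟨K, hK⟩ := main_dataY hr (by omega : 1 ≤ C) hΛ hd0 (B := fun K b => c * ff (X K b))
    (fun K b => mul_nonneg hc.le (hX₀ _ (hX K b)).1)
    (Dz := fun K b z => z ≠ 0 ∧ (X K b) ^ (6 / 7 : ℝ) ≤ gapCount (X K b) d (a K b) z.natAbs)
    (fun b => Filter.Eventually.of_forall fun K => (hX₀ _ (hX K b)).2 (a K b) (ha K b)) D hφ hB
  exact hD K hK

end Pool.Agent.H469S
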